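import Pool.Agent.H913R3.MH.Stmts

open MeasureTheory Set Filter Topology
open scoped ENNReal

namespace H913R3.MH

theorem taskCover : TaskCover := by
  intro m n δ hn hδ hδ1 x hx R hR τ
  set d : ℝ := δ / (n : ℝ) ^ m with hd
  have hn0 : (0 : ℝ) < n := by exact_mod_cast hn
  have hd0 : 0 < d := by positivity
  have hm1 : (1 : ℝ) ≤ (n : ℝ) ^ m := one_le_pow₀ (by exact_mod_cast hn)
  let A : ℕ → ℝ → Prop := fun j t => ∃ q : Fin m → ℤ, (∀ i, |q i| ≤ (j : ℤ) * n) ∧
      ∃ p : ℤ, |∑ i, (q i : ℝ) * x i - p - t| ≤ j * d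
  by_contra hcon
  have hAR : ¬ A R τ := hcon
  have hA0 : ∀ j, A j 0 := by
    intro j
    refine ⟨0, ?_, 0, ?_⟩
    · intro i
      simp only [Pi.zero_apply, abs_zero]
      positivity
    · simp only [Pi.zero_apply, Int.cast_zero, zero_mul, Finset.sum_const_zero, sub_zero, abs_zero]
      positivity
  have hmono : ∀ j k t, j ≤ k → A j t → A k t := by
    rintro j k t hjk ⟨q, hq, p, hp⟩
    refine ⟨q, fun i => (hq i).trans ?_, p, hp.trans ?_⟩
    · have : (j : ℤ) ≤ k := by exact_mod_cast hjk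
      exact mul_le_mul_of_nonneg_right this (by positivity)
    · have : (j : ℝ) ≤ k := by exact_mod_cast hjk
      exact mul_le_mul_of_nonneg_right this hd0.le
  have hstep : ∀ j t t', |t - t'| ≤ d → A j t → A (j + 1) t' := by
    rintro j t t' htt ⟨q, hq, p, hp⟩
    refine ⟨q, fun i => (hq i).trans ?_, p, ?_⟩
    · push_cast
      have : (0 : ℤ) ≤ n := by positivity
      nlinarith
    · push_cast
      have h1 := abs_add_le (∑ i, (q i : ℝ) * x i - p - t) (t - t')
      have e : ∑ i, (q i : ℝ) * x i - p - t' = (∑ i, (q i : ℝ) * x i - p - t) + (t - t') := by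
        ring
      rw [e]
      linarith
  -- translation by small vectors
  have htrans : ∀ j s s' (u : Fin m → ℤ) (p : ℤ), A (j + 1) s → (∀ i, |u i| ≤ (n : ℤ)) →
      |s' - (s + ∑ i, (u i : ℝ) * x i - p)| ≤ d → A (j + 2) s' := by
    rintro j s s' u p ⟨q, hq, p', hp⟩ hu h
    refine ⟨q + u, fun i => ?_, p' + p, ?_⟩
    · have h1 := abs_add_le (q i) (u i)
      have h2 := hq i
      have h3 := hu i
      simp only [Pi.add_apply]
      push_cast at h2 ⊢
      nlinarith
    · have e : ∑ i, (((q + u) i : ℤ) : ℝ) * x i - ((p' + p : ℤ) : ℝ) - s'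
          = (∑ i, (q i : ℝ) * x i - p' - s) + (-(s' - (s + ∑ i, (u i : ℝ) * x i - p))) := by
        simp only [Pi.add_apply, Int.cast_add, add_mul, Finset.sum_add_distrib]
        ring
      rw [e]
      have h1 := abs_add_le (∑ i, (q i : ℝ) * x i - p' - s)
        (-(s' - (s + ∑ i, (u i : ℝ) * x i - p)))
      rw [abs_neg] at h1
      push_cast at hp ⊢
      linarith
  obtain ⟨N, hN⟩ := exists_nat_gt (|τ| / d)
  have hN0 : (0 : ℝ) < N := lt_of_le_of_lt (by positivity) hN
  have hs : ∀ j, j ≤ R → ∃ s, ¬ A j s ∧ A (j + 1) s := by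
    intro j hj
    classical
    have hex : ∃ i : ℕ, ¬ A j (i * τ / N) := by
      refine ⟨N, ?_⟩
      have : (N : ℝ) * τ / N = τ := by field_simp
      rw [this]
      intro h
      exact hAR (hmono j R τ hj h)
    have hf := Nat.find_spec hex
    have hmin := fun k => @Nat.find_min _ _ hex k
    set i := Nat.find hex with hi
    have hi0 : i ≠ 0 := by
      intro h0
      apply hf
      rw [h0]
      simpa using hA0 j
    obtain ⟨k, hk⟩ := Nat.exists_eq_succ_of_ne_zero hi0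
    have hAk : A j (k * τ / N) := by
      by_contra hh
      exact hmin k (by omega) hh
    refine ⟨i * τ / N, hf, hstep j (k * τ / N) _ ?_ hAk⟩
    have e : (k : ℝ) * τ / N - i * τ / N = -(τ / N) := by
      rw [hk]
      push_cast
      ring
    rw [e, abs_neg, abs_div, abs_of_pos hN0, div_le_iff₀ hN0]
    rw [div_lt_iff₀ hd0] at hN
    linarith
  choose! s hs1 hs2 using hs
  -- pigeonhole
  set J : ℕ := R / 2 + 1 with hJ
  set K : ℕ := ⌈(n : ℝ) ^ m / δ⌉₊ with hK
  have hnd : 1 ≤ (n : ℝ) ^ m / δ := by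
    rw [le_div_iff₀ hδ]
    linarith
  have hKle : (K : ℝ) ≤ 2 * ((n : ℝ) ^ m / δ) := by
    have := Nat.ceil_lt_add_one (a := (n : ℝ) ^ m / δ) (by positivity)
    linarith
  have hKge : (n : ℝ) ^ m / δ ≤ K := Nat.le_ceil _
  have hK0 : (0 : ℝ) < K := by linarith
  have hK0' : 0 < K := by exact_mod_cast hK0
  have hKd : 1 / (K : ℝ) ≤ d := by
    rw [div_le_iff₀ hK0]
    have : d * ((n : ℝ) ^ m / δ) = 1 := by
      rw [hd]
      field_simp
    nlinarith
  let z : Fin J × (Fin m → Fin (n + 1)) → ℝ := fun a =>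
    ∑ i, ((a.2 i : ℕ) : ℝ) * x i + s (2 * a.1)
  have hbin : ∀ a, ⌊(K : ℝ) * Int.fract (z a)⌋₊ < K := by
    intro a
    rw [Nat.floor_lt (mul_nonneg hK0.le (Int.fract_nonneg _))]
    have := Int.fract_lt_one (z a)
    nlinarith
  let f : Fin J × (Fin m → Fin (n + 1)) → Fin K := fun a => ⟨⌊(K : ℝ) * Int.fract (z a)⌋₊, hbin a⟩
  have hcard : Fintype.card (Fin K) < Fintype.card (Fin J × (Fin m → Fin (n + 1))) := by
    simp only [Fintype.card_fin, Fintype.card_prod, Fintype.card_fun]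
    have h1 : (K : ℝ) < (J : ℝ) * ((n : ℝ) + 1) ^ m := by
      have hJR : (R : ℝ) / 2 < J := by
        have : R < 2 * J := by omega
        have h2 : (R : ℝ) < 2 * J := by exact_mod_cast this
        linarith
      have h3 : 3 / δ < J := by
        have : 6 / δ = 2 * (3 / δ) := by ring
        linarith
      have h4 : (n : ℝ) ^ m ≤ ((n : ℝ) + 1) ^ m := pow_le_pow_left₀ hn0.le (by linarith) m
      have h5 : 3 / δ * (n : ℝ) ^ m < (J : ℝ) * ((n : ℝ) + 1) ^ m := by
        have h6 : 0 < 3 / δ := by positivity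
        have h7 : (0 : ℝ) < (n : ℝ) ^ m := by positivity
        nlinarith
      have h6 : 3 / δ * (n : ℝ) ^ m = 3 * ((n : ℝ) ^ m / δ) := by ring
      linarith
    exact_mod_cast h1
  obtain ⟨a, b, hab, hfab⟩ := Fintype.exists_ne_map_eq_of_card_lt f hcard
  have hfl : ⌊(K : ℝ) * Int.fract (z a)⌋₊ = ⌊(K : ℝ) * Int.fract (z b)⌋₊ := by
    have := congrArg Fin.val hfab
    exact this
  -- closeness
  have hclose : |Int.fract (z a) - Int.fract (z b)| < d := by
    have h1 := Nat.floor_le (mul_nonneg hK0.le (Int.fract_nonneg (z a)))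
    have h2 := Nat.lt_floor_add_one ((K : ℝ) * Int.fract (z a))
    have h3 := Nat.floor_le (mul_nonneg hK0.le (Int.fract_nonneg (z b)))
    have h4 := Nat.lt_floor_add_one ((K : ℝ) * Int.fract (z b))
    rw [← hfl] at h3 h4
    have h5 : |(K : ℝ) * (Int.fract (z a) - Int.fract (z b))| < 1 := by
      rw [abs_lt]
      constructor <;> nlinarith
    rw [abs_mul, abs_of_pos hK0] at h5
    have h6 : |Int.fract (z a) - Int.fract (z b)| < 1 / K := by
      rw [lt_div_iff₀ hK0]
      linarith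
    linarith
  have hclose2 : |z a - z b - ((⌊z a⌋ - ⌊z b⌋ : ℤ) : ℝ)| < d := by
    have e : z a - z b - ((⌊z a⌋ - ⌊z b⌋ : ℤ) : ℝ) = Int.fract (z a) - Int.fract (z b) := by
      simp only [Int.fract]
      push_cast
      ring
    rw [e]
    exact hclose
  -- general contradiction for two different levels
  have hlevel : ∀ (u v : Fin J × (Fin m → Fin (n + 1))) (p : ℤ), (u.1 : ℕ) < v.1 →
      |z u - z v - (p : ℝ)| < d → False := by
    intro u v p huv h
    have hv : 2 * (v.1 : ℕ) ≤ R := by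
      have := v.1.2
      omega
    have hu : 2 * (u.1 : ℕ) ≤ R := by omega
    apply hs1 (2 * (v.1 : ℕ)) hv
    apply hmono (2 * (u.1 : ℕ) + 2) (2 * (v.1 : ℕ)) _ (by omega)
    refine htrans (2 * (u.1 : ℕ)) (s (2 * (u.1 : ℕ))) _
      (fun i => ((u.2 i : ℕ) : ℤ) - ((v.2 i : ℕ) : ℤ)) p (hs2 _ hu) ?_ ?_
    · intro i
      have h1 := (u.2 i).2
      have h2 := (v.2 i).2
      rw [abs_le]
      constructor <;> omega
    · have e : s (2 * (v.1 : ℕ)) - (s (2 * (u.1 : ℕ)) +
          ∑ i, (((((u.2 i : ℕ) : ℤ) - ((v.2 i : ℕ) : ℤ) : ℤ)) : ℝ) * x i - (p : ℝ))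
          = -(z u - z v - (p : ℝ)) := by
        simp only [z, Int.cast_sub, Int.cast_natCast, sub_mul, Finset.sum_sub_distrib]
        ring
      rw [e, abs_neg]
      exact h.le
  rcases lt_trichotomy (a.1 : ℕ) (b.1 : ℕ) with hlt | heq | hgt
  · exact hlevel a b _ hlt hclose2
  · -- same level
    have h1 : a.1 = b.1 := Fin.ext heq
    have h2 : a.2 ≠ b.2 := fun h => hab (Prod.ext h1 h)
    have hne : (fun i => ((a.2 i : ℕ) : ℤ) - ((b.2 i : ℕ) : ℤ)) ≠ 0 := by
      intro h0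
      apply h2
      funext i
      have := congrFun h0 i
      simp only [Pi.zero_apply] at this
      apply Fin.ext
      omega
    have h3 := hx (fun i => ((a.2 i : ℕ) : ℤ) - ((b.2 i : ℕ) : ℤ)) hne (by
      intro i
      have h1 := (a.2 i).2
      have h2 := (b.2 i).2
      rw [abs_le]
      constructor <;> omega) (⌊z a⌋ - ⌊z b⌋)
    have e : ∑ i, (((((a.2 i : ℕ) : ℤ) - ((b.2 i : ℕ) : ℤ) : ℤ)) : ℝ) * x i
        - ((⌊z a⌋ - ⌊z b⌋ : ℤ) : ℝ) = z a - z b - ((⌊z a⌋ - ⌊z b⌋ : ℤ) : ℝ) := by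
      simp only [z, Int.cast_sub, Int.cast_natCast, sub_mul, Finset.sum_sub_distrib, h1]
      ring
    rw [e] at h3
    exact absurd h3 (not_le.mpr hclose2)
  · refine hlevel b a (-(⌊z a⌋ - ⌊z b⌋)) hgt ?_
    have e : z b - z a - ((-(⌊z a⌋ - ⌊z b⌋) : ℤ) : ℝ)
        = -(z a - z b - ((⌊z a⌋ - ⌊z b⌋ : ℤ) : ℝ)) := by
      push_cast
      ring
    rw [e, abs_neg]
    exact hclose2

end H913R3.MH
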