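import Pool.Agent.H913R3.MH.Stmts

open MeasureTheory Set Filter Topology
open scoped ENNReal

namespace H913R3.MH

theorem local_harm (n : ℕ) : ∑ k ∈ Finset.Icc 1 n, (1 : ℝ) / k ≤ 2 * Real.sqrt n := by
  induction n with
  | zero => simp
  | succ n ih =>
    rw [Finset.sum_Icc_succ_top (by omega)]
    have h1 : Real.sqrt n ^ 2 = n := Real.sq_sqrt (by positivity)
    have h2 : Real.sqrt ((n + 1 : ℕ) : ℝ) ^ 2 = ((n + 1 : ℕ) : ℝ) := Real.sq_sqrt (by positivity)
    have h3 : 0 ≤ Real.sqrt n := Real.sqrt_nonneg _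
    have h4 : 1 ≤ Real.sqrt ((n + 1 : ℕ) : ℝ) := by
      rw [Real.one_le_sqrt]
      push_cast
      have : (0 : ℝ) ≤ n := by positivity
      linarith
    set s := Real.sqrt ((n + 1 : ℕ) : ℝ) with hs
    set t := Real.sqrt n with ht
    have h5 : s ^ 2 = t ^ 2 + 1 := by
      rw [h2, h1]
      push_cast
      ring
    rw [← h2]
    have h6 : (s - t) * (s + t) = 1 := by nlinarith
    have h7 : t ≤ s := by
      by_contra hc
      push Not at hc
      nlinarith
    have h8 : 1 / s ^ 2 ≤ 2 * (s - t) := by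
      rw [div_le_iff₀ (by positivity)]
      have h9 : 0 ≤ s - t := by linarith
      have h10 : 1 ≤ 2 * (s - t) * s := by nlinarith
      nlinarith
    linarith

theorem local_one (a b r c : ℝ) (k : ℕ) (hk : 1 ≤ k) (hab : a < b) (hr : 0 < r) (hr1 : r ≤ 1) :
    volume {t : ℝ | t ∈ Icc a b ∧ ∃ p : ℤ, |(k : ℝ) * t + c - p| < r} ≤
      ENNReal.ofReal (2 * r * (b - a) + 6 * r * (1 / k)) := by
  have hk0 : (0 : ℝ) < k := by exact_mod_cast hk
  set F : Finset ℤ := Finset.Icc ⌈(k : ℝ) * a + c - r⌉ ⌊(k : ℝ) * b + c + r⌋ with hF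
  have hsub : {t : ℝ | t ∈ Icc a b ∧ ∃ p : ℤ, |(k : ℝ) * t + c - p| < r} ⊆
      ⋃ p ∈ F, Ioo ((p - c - r) / k) ((p - c + r) / k) := by
    rintro t ⟨⟨hta, htb⟩, p, hp⟩
    rw [abs_lt] at hp
    simp only [mem_iUnion, exists_prop]
    refine ⟨p, ?_, ?_, ?_⟩
    · rw [hF, Finset.mem_Icc, Int.ceil_le, Int.le_floor]
      constructor <;> nlinarith
    · rw [div_lt_iff₀ hk0]
      linarith
    · rw [lt_div_iff₀ hk0]
      linarith
  have hcard : (F.card : ℝ) ≤ k * (b - a) + 3 := by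
    rw [hF, Int.card_Icc]
    have h1 : ((⌊(k : ℝ) * b + c + r⌋ : ℤ) : ℝ) ≤ (k : ℝ) * b + c + r := Int.floor_le _
    have h2 : (k : ℝ) * a + c - r ≤ ((⌈(k : ℝ) * a + c - r⌉ : ℤ) : ℝ) := Int.le_ceil _
    rcases le_total 0 (⌊(k : ℝ) * b + c + r⌋ + 1 - ⌈(k : ℝ) * a + c - r⌉) with h | h
    · have h3 : (((⌊(k : ℝ) * b + c + r⌋ + 1 - ⌈(k : ℝ) * a + c - r⌉).toNat : ℤ) : ℝ)
          = ((⌊(k : ℝ) * b + c + r⌋ + 1 - ⌈(k : ℝ) * a + c - r⌉ : ℤ) : ℝ) := by
        rw [Int.toNat_of_nonneg h]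
      rw [Int.cast_natCast] at h3
      rw [h3]
      push_cast
      linarith
    · rw [Int.toNat_of_nonpos h]
      push_cast
      have : 0 ≤ (k : ℝ) * (b - a) := mul_nonneg hk0.le (by linarith)
      linarith
  calc volume {t : ℝ | t ∈ Icc a b ∧ ∃ p : ℤ, |(k : ℝ) * t + c - p| < r}
      ≤ volume (⋃ p ∈ F, Ioo (((p : ℝ) - c - r) / k) ((p - c + r) / k)) := measure_mono hsub
    _ ≤ ∑ p ∈ F, volume (Ioo (((p : ℝ) - c - r) / k) ((p - c + r) / k)) :=
        measure_biUnion_finset_le _ _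
    _ = ∑ p ∈ F, ENNReal.ofReal (2 * r / k) := by
        refine Finset.sum_congr rfl fun p _ => ?_
        rw [Real.volume_Ioo]
        congr 1
        ring
    _ = ENNReal.ofReal ((F.card : ℝ) * (2 * r / k)) := by
        rw [Finset.sum_const, nsmul_eq_mul, ENNReal.ofReal_mul (by positivity),
          ENNReal.ofReal_natCast]
    _ ≤ ENNReal.ofReal (2 * r * (b - a) + 6 * r * (1 / k)) := by
        apply ENNReal.ofReal_le_ofReal
        have h1 : (F.card : ℝ) * (2 * r / k) ≤ (k * (b - a) + 3) * (2 * r / k) :=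
          mul_le_mul_of_nonneg_right hcard (by positivity)
        refine h1.trans (le_of_eq ?_)
        field_simp
        ring

theorem taskLocal : TaskLocal := by
  intro m
  refine ⟨1 / (6 * 3 ^ m), by positivity, ?_, 144, ?_⟩
  · rw [div_le_one (by positivity)]
    have : (1 : ℝ) ≤ 3 ^ m := one_le_pow₀ (by norm_num)
    linarith
  intro y n a b hn hab hb1 hQ hy
  set δ : ℝ := 1 / (6 * 3 ^ m) with hδ
  have hδ0 : 0 < δ := by positivity
  have hδ1 : δ ≤ 1 := by
    rw [hδ, div_le_one (by positivity)]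
    have : (1 : ℝ) ≤ 3 ^ m := one_le_pow₀ (by norm_num)
    linarith
  have hn0 : (0 : ℝ) < n := by exact_mod_cast hn
  have hn1 : (1 : ℝ) ≤ n := by exact_mod_cast hn
  set r : ℝ := δ / (n : ℝ) ^ (m + 1) with hr
  have hr0 : 0 < r := by positivity
  have hr1 : r ≤ 1 := by
    rw [hr, div_le_one (by positivity)]
    exact hδ1.trans (one_le_pow₀ hn1)
  set V : Finset (Fin m → ℤ) := Fintype.piFinset (fun _ => Finset.Icc (-(n : ℤ)) n) with hV
  have hVcard : (V.card : ℝ) ≤ (3 * n) ^ m := by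
    rw [hV, Fintype.card_piFinset]
    simp only [Int.card_Icc, Finset.prod_const, Finset.card_univ, Fintype.card_fin]
    have : ((n : ℤ) + 1 - -(n : ℤ)).toNat = 2 * n + 1 := by omega
    rw [this]
    push_cast
    exact pow_le_pow_left₀ (by positivity) (by linarith) m
  have hsub : {t : ℝ | t ∈ Icc a b ∧ ¬ Bd (m + 1) (m + 1) n δ (Fin.cons t y)} ⊆
      ⋃ k ∈ Finset.Icc 1 n, ⋃ v ∈ V,
        {t : ℝ | t ∈ Icc a b ∧ ∃ p : ℤ, |(k : ℝ) * t + (∑ j, (v j : ℝ) * y j) - p| < r} := by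
    rintro t ⟨htab, hbad⟩
    unfold Bd at hbad
    push Not at hbad
    obtain ⟨q, hq0, hqn, p, hp⟩ := hbad
    rw [Fin.sum_univ_succ] at hp
    simp only [Fin.cons_zero, Fin.cons_succ] at hp
    have hq00 : q 0 ≠ 0 := by
      intro h0
      have hne : (fun j : Fin m => q j.succ) ≠ 0 := by
        intro h1
        apply hq0
        funext j
        refine Fin.cases ?_ (fun i => ?_) j
        · exact h0
        · exact congrFun h1 i
      have h2 := hy (fun j => q j.succ) hne (fun j => hqn _) p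
      rw [h0] at hp
      simp only [Int.cast_zero, zero_mul, zero_add] at hp
      exact absurd h2 (not_le.mpr hp)
    simp only [mem_iUnion, exists_prop]
    rcases lt_or_gt_of_ne hq00 with hneg | hpos
    · refine ⟨(-(q 0)).toNat, ?_, fun j => -(q j.succ), ?_, htab, -p, ?_⟩
      · have h1 := hqn 0
        rw [abs_le] at h1
        rw [Finset.mem_Icc]
        constructor <;> omega
      · rw [hV, Fintype.mem_piFinset]
        intro j
        have h1 := hqn j.succ
        rw [abs_le] at h1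
        rw [Finset.mem_Icc]
        constructor <;> omega
      · have h1 : (((-(q 0)).toNat : ℕ) : ℝ) = -(q 0 : ℝ) := by
          have : (((-(q 0)).toNat : ℤ)) = -(q 0) := Int.toNat_of_nonneg (by omega)
          have h2 : ((((-(q 0)).toNat : ℤ)) : ℝ) = ((-(q 0) : ℤ) : ℝ) := by rw [this]
          rw [Int.cast_natCast] at h2
          rw [h2]
          push_cast
          ring
        rw [h1]
        have e : -(q 0 : ℝ) * t + ∑ j : Fin m, ((-(q j.succ) : ℤ) : ℝ) * y j - ((-p : ℤ) : ℝ)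
            = -((q 0 : ℝ) * t + ∑ i : Fin m, (q i.succ : ℝ) * y i - p) := by
          simp only [Int.cast_neg, neg_mul, Finset.sum_neg_distrib]
          ring
        rw [e, abs_neg]
        exact hp
    · refine ⟨(q 0).toNat, ?_, fun j => q j.succ, ?_, htab, p, ?_⟩
      · have h1 := hqn 0
        rw [abs_le] at h1
        rw [Finset.mem_Icc]
        constructor <;> omega
      · rw [hV, Fintype.mem_piFinset]
        intro j
        have h1 := hqn j.succ
        rw [abs_le] at h1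
        rw [Finset.mem_Icc]
        constructor <;> omega
      · have h1 : (((q 0).toNat : ℕ) : ℝ) = (q 0 : ℝ) := by
          have : (((q 0).toNat : ℤ)) = q 0 := Int.toNat_of_nonneg (by omega)
          have h2 : ((((q 0).toNat : ℤ)) : ℝ) = ((q 0 : ℤ) : ℝ) := by rw [this]
          rw [Int.cast_natCast] at h2
          exact h2
        rw [h1]
        exact hp
  have hpos1 : ∀ k ∈ Finset.Icc 1 n, 0 ≤ (V.card : ℝ) * (2 * r * (b - a) + 6 * r * (1 / k)) := by
    intro k _
    have : 0 ≤ b - a := by linarith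
    positivity
  calc volume {t : ℝ | t ∈ Icc a b ∧ ¬ Bd (m + 1) (m + 1) n δ (Fin.cons t y)}
      ≤ volume (⋃ k ∈ Finset.Icc 1 n, ⋃ v ∈ V,
        {t : ℝ | t ∈ Icc a b ∧ ∃ p : ℤ, |(k : ℝ) * t + (∑ j, (v j : ℝ) * y j) - p| < r}) :=
        measure_mono hsub
    _ ≤ ∑ k ∈ Finset.Icc 1 n, volume (⋃ v ∈ V,
        {t : ℝ | t ∈ Icc a b ∧ ∃ p : ℤ, |(k : ℝ) * t + (∑ j, (v j : ℝ) * y j) - p| < r}) :=
        measure_biUnion_finset_le _ _
    _ ≤ ∑ k ∈ Finset.Icc 1 n, ∑ v ∈ V, volume
        {t : ℝ | t ∈ Icc a b ∧ ∃ p : ℤ, |(k : ℝ) * t + (∑ j, (v j : ℝ) * y j) - p| < r} :=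
        Finset.sum_le_sum fun k _ => measure_biUnion_finset_le _ _
    _ ≤ ∑ k ∈ Finset.Icc 1 n, ∑ v ∈ V, ENNReal.ofReal (2 * r * (b - a) + 6 * r * (1 / k)) :=
        Finset.sum_le_sum fun k hk => Finset.sum_le_sum fun v _ =>
          local_one a b r _ k (Finset.mem_Icc.mp hk).1 hab hr0 hr1
    _ = ∑ k ∈ Finset.Icc 1 n,
          ENNReal.ofReal ((V.card : ℝ) * (2 * r * (b - a) + 6 * r * (1 / k))) := by
        refine Finset.sum_congr rfl fun k _ => ?_
        rw [Finset.sum_const, nsmul_eq_mul, ENNReal.ofReal_mul (by positivity),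
          ENNReal.ofReal_natCast]
    _ = ENNReal.ofReal (∑ k ∈ Finset.Icc 1 n,
          (V.card : ℝ) * (2 * r * (b - a) + 6 * r * (1 / k))) := by
        rw [ENNReal.ofReal_sum_of_nonneg hpos1]
    _ ≤ ENNReal.ofReal ((b - a) / 2) := by
        apply ENNReal.ofReal_le_ofReal
        have e0 : ∑ k ∈ Finset.Icc 1 n, (V.card : ℝ) * (2 * r * (b - a) + 6 * r * (1 / k))
            = (V.card : ℝ) * (((n + 1 - 1 : ℕ) : ℝ) * (2 * r * (b - a)) +
              6 * r * ∑ i ∈ Finset.Icc 1 n, (1 : ℝ) / i) := by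
          rw [← Finset.mul_sum, Finset.sum_add_distrib, Finset.sum_const,
            Nat.card_Icc, nsmul_eq_mul, Finset.mul_sum]
        rw [e0]
        have hH := local_harm n
        have hba : 0 < b - a := by linarith
        have hs0 : 0 < Real.sqrt n := Real.sqrt_pos.mpr hn0
        have hs2 : Real.sqrt n ^ 2 = n := Real.sq_sqrt hn0.le
        have h12 : 12 ≤ Real.sqrt n * (b - a) := by
          have h1 : (12 : ℝ) ^ 2 ≤ (Real.sqrt n * (b - a)) ^ 2 := by
            rw [mul_pow, hs2]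
            linarith
          exact le_of_sq_le_sq h1 (by positivity)
        have e1 : ((n + 1 - 1 : ℕ) : ℝ) = n := by simp
        rw [e1]
        have hbr : (n : ℝ) * (2 * r * (b - a)) + 6 * r * ∑ i ∈ Finset.Icc 1 n, (1 : ℝ) / i
            ≤ 3 * r * n * (b - a) := by
          have h1 : 6 * r * ∑ i ∈ Finset.Icc 1 n, (1 : ℝ) / i ≤ 6 * r * (2 * Real.sqrt n) :=
            mul_le_mul_of_nonneg_left hH (by positivity)
          have h2 : 12 * Real.sqrt n ≤ (n : ℝ) * (b - a) := by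
            have := mul_le_mul_of_nonneg_right h12 hs0.le
            calc 12 * Real.sqrt n ≤ Real.sqrt n * (b - a) * Real.sqrt n := this
              _ = Real.sqrt n ^ 2 * (b - a) := by ring
              _ = (n : ℝ) * (b - a) := by rw [hs2]
          nlinarith
        have hbr0 : 0 ≤ 3 * r * n * (b - a) := by positivity
        calc (V.card : ℝ) * ((n : ℝ) * (2 * r * (b - a)) +
              6 * r * ∑ i ∈ Finset.Icc 1 n, (1 : ℝ) / i)
            ≤ (V.card : ℝ) * (3 * r * n * (b - a)) :=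
              mul_le_mul_of_nonneg_left hbr (by positivity)
          _ ≤ (3 * n) ^ m * (3 * r * n * (b - a)) := mul_le_mul_of_nonneg_right hVcard hbr0
          _ = (b - a) / 2 := by
              rw [hr, hδ]
              field_simp
              ring

end H913R3.MH
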