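import Mathlib
import Pool.Agent.H508R3.SC

set_option autoImplicit false

namespace Pool.Agent.H234R4.SC1508

open Matrix Pool.Agent.H508R3.SC

/-! ### The abstract perturbation lemma -/

theorem perturb {R : Type*} [NormedRing R] (h1 : ‖(1 : R)‖ ≤ 1) (P Q D E : ℕ → R) (a : ℕ → ℝ)
    (β V : ℝ) (hP0 : P 0 = 1) (hQ0 : Q 0 = 1)
    (hP : ∀ n, P (n + 1) = (1 + D n + E n) * P n) (hQ : ∀ n, Q (n + 1) = (1 + D n) * Q n)
    (ha : ∀ n, ‖D n‖ ≤ a n) (ha' : ∀ n, ‖D n + E n‖ ≤ a n)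
    (hβ : ∀ n, ‖∑ m ∈ Finset.range n, E m‖ ≤ β) (n : ℕ)
    (hV : ∑ m ∈ Finset.range n, a m ≤ V) :
    ‖P n - Q n‖ ≤ 2 * β * Real.exp (2 * V) := by
  have hβ0 : 0 ≤ β := le_trans (norm_nonneg _) (hβ 0)
  have ha0 : ∀ n, 0 ≤ a n := fun n => le_trans (norm_nonneg _) (ha n)
  have hπ1 : ∀ n, 1 ≤ ∏ m ∈ Finset.range n, (1 + a m) := by
    intro n
    induction n with
    | zero => simp
    | succ n ih =>
      rw [Finset.prod_range_succ]
      nlinarith [ha0 n]
  have hPn : ∀ n, ‖P n‖ ≤ ∏ m ∈ Finset.range n, (1 + a m) := by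
    intro n
    induction n with
    | zero => simpa [hP0] using h1
    | succ n ih =>
      rw [hP, Finset.prod_range_succ]
      have e : (1 + D n + E n) * P n = P n + (D n + E n) * P n := by noncomm_ring
      rw [e]
      calc ‖P n + (D n + E n) * P n‖ ≤ ‖P n‖ + ‖(D n + E n) * P n‖ := norm_add_le _ _
        _ ≤ ‖P n‖ + ‖D n + E n‖ * ‖P n‖ := by
            gcongr
            exact norm_mul_le _ _
        _ ≤ ‖P n‖ + a n * ‖P n‖ := by
            gcongr
            exact ha' n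
        _ = (1 + a n) * ‖P n‖ := by ring
        _ ≤ (1 + a n) * ∏ m ∈ Finset.range n, (1 + a m) := by
            have := ha0 n
            gcongr
        _ = _ := by ring
  have hS : ∀ n, ‖P n - Q n - (∑ m ∈ Finset.range n, E m) * P n‖ ≤
      2 * β * (∏ m ∈ Finset.range n, (1 + a m)) * ((∏ m ∈ Finset.range n, (1 + a m)) - 1) := by
    intro n
    induction n with
    | zero => simp [hP0, hQ0]
    | succ n ih =>
      have e : P (n + 1) - Q (n + 1) - (∑ m ∈ Finset.range (n + 1), E m) * P (n + 1) =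
          (P n - Q n - (∑ m ∈ Finset.range n, E m) * P n) +
          D n * (P n - Q n - (∑ m ∈ Finset.range n, E m) * P n) +
          (D n * ((∑ m ∈ Finset.range n, E m) * P n)) +
          (- ((∑ m ∈ Finset.range (n + 1), E m) * ((D n + E n) * P n))) := by
        rw [hP, hQ, Finset.sum_range_succ]
        noncomm_ring
      set π := ∏ m ∈ Finset.range n, (1 + a m) with hπ
      have hπn := hπ1 n
      rw [← hπ] at hπn
      have hpn := hPn n
      rw [← hπ] at hpn
      rw [e, Finset.prod_range_succ, ← hπ]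
      have b1 : ‖D n * (P n - Q n - (∑ m ∈ Finset.range n, E m) * P n)‖ ≤
          a n * (2 * β * π * (π - 1)) := by
        refine (norm_mul_le _ _).trans ?_
        exact mul_le_mul (ha n) ih (norm_nonneg _) (ha0 n)
      have b2 : ‖D n * ((∑ m ∈ Finset.range n, E m) * P n)‖ ≤ a n * (β * π) := by
        refine (norm_mul_le _ _).trans ?_
        refine mul_le_mul (ha n) ?_ (norm_nonneg _) (ha0 n)
        refine (norm_mul_le _ _).trans ?_
        exact mul_le_mul (hβ n) hpn (norm_nonneg _) hβ0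
      have b3 : ‖-((∑ m ∈ Finset.range (n + 1), E m) * ((D n + E n) * P n))‖ ≤
          β * (a n * π) := by
        rw [norm_neg]
        refine (norm_mul_le _ _).trans ?_
        refine mul_le_mul (hβ (n + 1)) ?_ (norm_nonneg _) hβ0
        refine (norm_mul_le _ _).trans ?_
        exact mul_le_mul (ha' n) hpn (norm_nonneg _) (ha0 n)
      have t := norm_add_le ((P n - Q n - (∑ m ∈ Finset.range n, E m) * P n) +
          D n * (P n - Q n - (∑ m ∈ Finset.range n, E m) * P n) +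
          (D n * ((∑ m ∈ Finset.range n, E m) * P n)))
          (- ((∑ m ∈ Finset.range (n + 1), E m) * ((D n + E n) * P n)))
      have t2 := norm_add_le ((P n - Q n - (∑ m ∈ Finset.range n, E m) * P n) +
          D n * (P n - Q n - (∑ m ∈ Finset.range n, E m) * P n))
          (D n * ((∑ m ∈ Finset.range n, E m) * P n))
      have t3 := norm_add_le (P n - Q n - (∑ m ∈ Finset.range n, E m) * P n)
          (D n * (P n - Q n - (∑ m ∈ Finset.range n, E m) * P n))
      have hfin : 2 * β * π * (π - 1) + a n * (2 * β * π * (π - 1)) + a n * (β * π) +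
          β * (a n * π) ≤ 2 * β * (π * (1 + a n)) * (π * (1 + a n) - 1) := by
        have e1 : 2 * β * (π * (1 + a n)) * (π * (1 + a n) - 1) -
            (2 * β * π * (π - 1) + a n * (2 * β * π * (π - 1)) + a n * (β * π) +
              β * (a n * π)) = 2 * β * π * a n * (π * (1 + a n) - 1) := by ring
        have e2 : 0 ≤ 2 * β * π * a n * (π * (1 + a n) - 1) := by
          have h3 : 0 ≤ π * (1 + a n) - 1 := by nlinarith [ha0 n]
          have h4 := ha0 n
          have h5 : 0 ≤ π := by linarith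
          positivity
        linarith
      linarith
  have hfin := hS n
  have hπe : ∏ m ∈ Finset.range n, (1 + a m) ≤ Real.exp V := by
    calc ∏ m ∈ Finset.range n, (1 + a m) ≤ ∏ m ∈ Finset.range n, Real.exp (a m) := by
          apply Finset.prod_le_prod
          · intro i _
            have := ha0 i
            linarith
          · intro i _
            have := Real.add_one_le_exp (a i)
            linarith
      _ = Real.exp (∑ m ∈ Finset.range n, a m) := by rw [Real.exp_sum]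
      _ ≤ Real.exp V := Real.exp_le_exp.2 hV
  set π := ∏ m ∈ Finset.range n, (1 + a m) with hπ
  have hπn := hπ1 n
  rw [← hπ] at hπn
  have hpn := hPn n
  rw [← hπ] at hpn
  have e : P n - Q n = (P n - Q n - (∑ m ∈ Finset.range n, E m) * P n) +
      (∑ m ∈ Finset.range n, E m) * P n := by abel
  rw [e]
  have b : ‖(∑ m ∈ Finset.range n, E m) * P n‖ ≤ β * π := by
    refine (norm_mul_le _ _).trans ?_
    exact mul_le_mul (hβ n) hpn (norm_nonneg _) hβ0
  have t := norm_add_le (P n - Q n - (∑ m ∈ Finset.range n, E m) * P n)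
    ((∑ m ∈ Finset.range n, E m) * P n)
  have hsq : π * π ≤ Real.exp (2 * V) := by
    rw [two_mul, Real.exp_add]
    have h5 : 0 ≤ π := by linarith
    exact mul_le_mul hπe hπe h5 (Real.exp_pos _).le
  have h6 : 2 * β * π * (π - 1) + β * π ≤ 2 * β * (π * π) := by
    have : 0 ≤ β * π := by
      have h5 : 0 ≤ π := by linarith
      positivity
    nlinarith
  have h7 : 2 * β * (π * π) ≤ 2 * β * Real.exp (2 * V) := by gcongr
  linarith

/-! ### Trigonometric sums -/

theorem abel (c w : ℕ → ℝ) (M : ℝ) (hw : Antitone w) (hw0 : ∀ n, 0 ≤ w n)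
    (hM : ∀ k, |∑ m ∈ Finset.range k, c m| ≤ M) (n : ℕ) :
    |∑ m ∈ Finset.range n, c m * w m| ≤ M * w 0 := by
  have key : ∀ n, |∑ m ∈ Finset.range n, c m * w m - (∑ m ∈ Finset.range n, c m) * w n| ≤
      M * (w 0 - w n) := by
    intro n
    induction n with
    | zero => simp
    | succ n ih =>
      have e : ∑ m ∈ Finset.range (n + 1), c m * w m -
          (∑ m ∈ Finset.range (n + 1), c m) * w (n + 1) =
          (∑ m ∈ Finset.range n, c m * w m - (∑ m ∈ Finset.range n, c m) * w n) +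
          (∑ m ∈ Finset.range (n + 1), c m) * (w n - w (n + 1)) := by
        rw [Finset.sum_range_succ, Finset.sum_range_succ]
        ring
      rw [e]
      refine (abs_add_le _ _).trans ?_
      have h1 : |(∑ m ∈ Finset.range (n + 1), c m) * (w n - w (n + 1))| ≤
          M * (w n - w (n + 1)) := by
        have h2 : 0 ≤ w n - w (n + 1) := sub_nonneg.2 (hw (Nat.le_succ n))
        rw [abs_mul, abs_of_nonneg h2]
        exact mul_le_mul_of_nonneg_right (hM _) h2
      linarith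
  have e : ∑ m ∈ Finset.range n, c m * w m =
      (∑ m ∈ Finset.range n, c m * w m - (∑ m ∈ Finset.range n, c m) * w n) +
      (∑ m ∈ Finset.range n, c m) * w n := by ring
  rw [e]
  refine (abs_add_le _ _).trans ?_
  have h1 : |(∑ m ∈ Finset.range n, c m) * w n| ≤ M * w n := by
    rw [abs_mul, abs_of_nonneg (hw0 n)]
    exact mul_le_mul_of_nonneg_right (hM _) (hw0 n)
  have := key n
  linarith

theorem sin_partial (x u : ℝ) (k : ℕ) : 2 * Real.sin (x / 2) *
    ∑ m ∈ Finset.range k, Real.sin (x * m + u) =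
      Real.cos (u - x / 2) - Real.cos (x * k + u - x / 2) := by
  induction k with
  | zero => simp
  | succ k ih =>
    rw [Finset.sum_range_succ, mul_add, ih]
    have e : x * ((k + 1 : ℕ) : ℝ) + u - x / 2 = (x * k + u) + x / 2 := by
      push_cast
      ring
    have h1 := Real.cos_add (x * k + u) (x / 2)
    have h2 := Real.cos_sub (x * k + u) (x / 2)
    rw [e]
    linear_combination h1 - h2

theorem cos_partial (x u : ℝ) (k : ℕ) : 2 * Real.sin (x / 2) *
    ∑ m ∈ Finset.range k, Real.cos (x * m + u) =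
      Real.sin (x * k + u - x / 2) - Real.sin (u - x / 2) := by
  induction k with
  | zero => simp
  | succ k ih =>
    rw [Finset.sum_range_succ, mul_add, ih]
    have e : x * ((k + 1 : ℕ) : ℝ) + u - x / 2 = (x * k + u) + x / 2 := by
      push_cast
      ring
    have h1 := Real.sin_add (x * k + u) (x / 2)
    have h2 := Real.sin_sub (x * k + u) (x / 2)
    rw [e]
    linear_combination h2 - h1

theorem sin_partial_le (x u : ℝ) (hx : Real.sin (x / 2) ≠ 0) (k : ℕ) :
    |∑ m ∈ Finset.range k, Real.sin (x * m + u)| ≤ 1 / |Real.sin (x / 2)| := by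
  have h := congrArg abs (sin_partial x u k)
  rw [abs_mul, abs_mul, abs_two] at h
  have h1 : |Real.cos (u - x / 2) - Real.cos (x * k + u - x / 2)| ≤ 2 := by
    have h2 := Real.abs_cos_le_one (u - x / 2)
    have h3 := Real.abs_cos_le_one (x * k + u - x / 2)
    have := abs_sub (Real.cos (u - x / 2)) (Real.cos (x * k + u - x / 2))
    linarith
  have hpos : 0 < |Real.sin (x / 2)| := abs_pos.2 hx
  rw [le_div_iff₀ hpos]
  rw [← h] at h1
  linarith

theorem cos_partial_le (x u : ℝ) (hx : Real.sin (x / 2) ≠ 0) (k : ℕ) :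
    |∑ m ∈ Finset.range k, Real.cos (x * m + u)| ≤ 1 / |Real.sin (x / 2)| := by
  have h := congrArg abs (cos_partial x u k)
  rw [abs_mul, abs_mul, abs_two] at h
  have h1 : |Real.sin (x * k + u - x / 2) - Real.sin (u - x / 2)| ≤ 2 := by
    have h2 := Real.abs_sin_le_one (u - x / 2)
    have h3 := Real.abs_sin_le_one (x * k + u - x / 2)
    have := abs_sub (Real.sin (x * k + u - x / 2)) (Real.sin (u - x / 2))
    linarith
  have hpos : 0 < |Real.sin (x / 2)| := abs_pos.2 hx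
  rw [le_div_iff₀ hpos]
  rw [← h] at h1
  linarith

theorem wt_antitone (N : ℕ) : Antitone (fun m : ℕ => 1 / ((m : ℝ) + N + 1)) := by
  intro m n hmn
  simp only []
  apply one_div_le_one_div_of_le
  · positivity
  · have : (m : ℝ) ≤ n := by exact_mod_cast hmn
    linarith

/-- Sums of `cos (y m) / m`. -/
theorem cos_sum_le (y : ℝ) (hy : Real.sin (y / 2) ≠ 0) (n : ℕ) :
    |∑ m ∈ Finset.range n, Real.cos (y * ((m : ℝ) + 1)) / ((m : ℝ) + 1)| ≤
      1 / |Real.sin (y / 2)| := by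
  have h := abel (fun m => Real.cos (y * m + y)) (fun m : ℕ => 1 / ((m : ℝ) + (0 : ℕ) + 1))
    (1 / |Real.sin (y / 2)|) (wt_antitone 0) (fun n => by positivity)
    (fun k => cos_partial_le y y hy k) n
  simp only [Nat.cast_zero, add_zero, zero_add, div_one, mul_one] at h
  refine le_trans (le_of_eq ?_) h
  congr 1
  apply Finset.sum_congr rfl
  intro m _
  rw [show y * ((m : ℝ) + 1) = y * m + y by ring]
  ring

theorem abs_sin_nat_mul_le (x : ℝ) (n : ℕ) : |Real.sin (x * n)| ≤ n * |Real.sin x| := by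
  induction n with
  | zero => simp
  | succ n ih =>
    have e : x * ((n + 1 : ℕ) : ℝ) = x * n + x := by push_cast; ring
    rw [e, Real.sin_add]
    push_cast
    have h1 : |Real.sin (x * n) * Real.cos x| ≤ |Real.sin (x * n)| := by
      rw [abs_mul]
      exact mul_le_of_le_one_right (abs_nonneg _) (Real.abs_cos_le_one x)
    have h2 : |Real.cos (x * n) * Real.sin x| ≤ |Real.sin x| := by
      rw [abs_mul]
      exact mul_le_of_le_one_left (abs_nonneg _) (Real.abs_cos_le_one _)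
    have := abs_add_le (Real.sin (x * n) * Real.cos x) (Real.cos (x * n) * Real.sin x)
    linarith

/-- Sums of `sin (x m) / m` are uniformly bounded. -/
theorem sin_sum_le (x : ℝ) (n : ℕ) :
    |∑ m ∈ Finset.range n, Real.sin (x * ((m : ℝ) + 1)) / ((m : ℝ) + 1)| ≤ 4 := by
  have hterm : ∀ m : ℕ, |Real.sin (x * ((m : ℝ) + 1)) / ((m : ℝ) + 1)| ≤
      2 * |Real.sin (x / 2)| := by
    intro m
    have hpos : (0 : ℝ) < (m : ℝ) + 1 := by positivity
    rw [abs_div, abs_of_pos hpos, div_le_iff₀ hpos]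
    have h1 := abs_sin_nat_mul_le x (m + 1)
    push_cast at h1
    have h2 : |Real.sin x| ≤ 2 * |Real.sin (x / 2)| := by
      have : Real.sin x = 2 * Real.sin (x / 2) * Real.cos (x / 2) := by
        rw [← Real.sin_two_mul]
        ring_nf
      rw [this, abs_mul, abs_mul, abs_two]
      exact mul_le_of_le_one_right (by positivity) (Real.abs_cos_le_one _)
    calc |Real.sin (x * ((m : ℝ) + 1))| ≤ ((m : ℝ) + 1) * |Real.sin x| := h1
      _ ≤ ((m : ℝ) + 1) * (2 * |Real.sin (x / 2)|) := by gcongr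
      _ = _ := by ring
  by_cases hs : Real.sin (x / 2) = 0
  · have : ∑ m ∈ Finset.range n, Real.sin (x * ((m : ℝ) + 1)) / ((m : ℝ) + 1) = 0 := by
      apply Finset.sum_eq_zero
      intro m _
      have := hterm m
      rw [hs, abs_zero, mul_zero] at this
      exact abs_eq_zero.1 (le_antisymm this (abs_nonneg _))
    rw [this]
    norm_num
  · have hpos : 0 < |Real.sin (x / 2)| := abs_pos.2 hs
    set s := |Real.sin (x / 2)| with hsdef
    set N := ⌊1 / s⌋₊ with hN
    have hNle : (N : ℝ) ≤ 1 / s := Nat.floor_le (by positivity)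
    have hNlt : 1 / s < (N : ℝ) + 1 := Nat.lt_floor_add_one _
    have hhead : ∀ k ≤ N, |∑ m ∈ Finset.range k, Real.sin (x * ((m : ℝ) + 1)) / ((m : ℝ) + 1)|
        ≤ 2 := by
      intro k hk
      calc |∑ m ∈ Finset.range k, Real.sin (x * ((m : ℝ) + 1)) / ((m : ℝ) + 1)|
          ≤ ∑ m ∈ Finset.range k, |Real.sin (x * ((m : ℝ) + 1)) / ((m : ℝ) + 1)| :=
            Finset.abs_sum_le_sum_abs _ _
        _ ≤ ∑ m ∈ Finset.range k, 2 * s := Finset.sum_le_sum fun m _ => hterm m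
        _ = k * (2 * s) := by rw [Finset.sum_const, Finset.card_range, nsmul_eq_mul]
        _ ≤ (1 / s) * (2 * s) := by
            have : (k : ℝ) ≤ N := by exact_mod_cast hk
            gcongr
            linarith
        _ = 2 := by field_simp
    rcases le_total n N with h | h
    · have := hhead n h
      linarith
    · obtain ⟨k, rfl⟩ := Nat.exists_eq_add_of_le h
      rw [Finset.sum_range_add]
      have h1 := hhead N le_rfl
      have h2 : |∑ m ∈ Finset.range k, Real.sin (x * (((N + m : ℕ) : ℝ) + 1)) /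
          (((N + m : ℕ) : ℝ) + 1)| ≤ 2 := by
        have h := abel (fun m => Real.sin (x * m + x * (N + 1)))
          (fun m : ℕ => 1 / ((m : ℝ) + N + 1))
          (1 / s) (wt_antitone N) (fun n => by positivity)
          (fun k => sin_partial_le x (x * (N + 1)) hs k) k
        have e : ∑ m ∈ Finset.range k, Real.sin (x * (((N + m : ℕ) : ℝ) + 1)) /
            (((N + m : ℕ) : ℝ) + 1) = ∑ m ∈ Finset.range k,
              Real.sin (x * m + x * (N + 1)) * (1 / ((m : ℝ) + N + 1)) := by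
          apply Finset.sum_congr rfl
          intro m _
          push_cast
          rw [show x * ((N : ℝ) + m + 1) = x * m + x * (N + 1) by ring,
            show (N : ℝ) + m + 1 = (m : ℝ) + N + 1 by ring]
          ring
        rw [e]
        refine h.trans ?_
        simp only [Nat.cast_zero, zero_add]
        have h3 : 1 / s * (1 / ((N : ℝ) + 1)) ≤ 1 := by
          rw [mul_one_div, div_le_one (by positivity)]
          exact hNlt.le
        linarith
      have := abs_add_le (∑ m ∈ Finset.range N, Real.sin (x * ((m : ℝ) + 1)) / ((m : ℝ) + 1))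
        (∑ m ∈ Finset.range k, Real.sin (x * (((N + m : ℕ) : ℝ) + 1)) /
          (((N + m : ℕ) : ℝ) + 1))
      linarith

theorem inv_sq_sum (n : ℕ) :
    ∑ m ∈ Finset.range (n + 1), 1 / ((m : ℝ) + 1) ^ 2 ≤ 2 - 1 / ((n : ℝ) + 1) := by
  induction n with
  | zero => norm_num
  | succ n ih =>
    rw [Finset.sum_range_succ]
    push_cast
    have h1 : 1 / ((n : ℝ) + 1 + 1) ^ 2 ≤ 1 / ((n : ℝ) + 1) - 1 / ((n : ℝ) + 1 + 1) := by
      have hp : (0 : ℝ) < (n : ℝ) + 1 := by positivity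
      have e : 1 / ((n : ℝ) + 1) - 1 / ((n : ℝ) + 1 + 1) = 1 / (((n : ℝ) + 1) * ((n : ℝ) + 1 + 1)) := by
        field_simp
        ring
      rw [e]
      apply one_div_le_one_div_of_le
      · positivity
      · nlinarith
    linarith

theorem inv_sq_sum_le (n : ℕ) : ∑ m ∈ Finset.range n, 1 / ((m : ℝ) + 1) ^ 2 ≤ 2 := by
  rcases n with _ | n
  · simp
  · have := inv_sq_sum n
    have h : 0 ≤ 1 / ((n : ℝ) + 1) := by positivity
    linarith

/-! ### The words -/

/-- letters -/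
noncomputable def bb (φ η : ℝ) (m : ℕ) : ℝ := η * wv φ m

/-- the perturbation in the rotating frame (angle `t`) -/
noncomputable def WW (θ b t : ℝ) : M2 :=
  (-(b / (2 * Real.sin θ))) •
    !![Real.sin (2 * t), 1 + Real.cos (2 * t); -(1 - Real.cos (2 * t)), -Real.sin (2 * t)]

noncomputable def AA (θ φ η : ℝ) (m : ℕ) : M2 := WW θ (bb φ η m) (θ * m)

noncomputable def GG (θ φ η : ℝ) : ℕ → M2
  | 0 => 1
  | n + 1 => (1 + AA θ φ η (n + 1)) * GG θ φ η n

/-- reflection -/
def JJ : M2 := !![1, 0; 0, -1]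

theorem JJ_sq : JJ * JJ = 1 := by
  ext i j
  fin_cases i <;> fin_cases j <;> simp [JJ, Matrix.mul_apply, Fin.sum_univ_two]

theorem rot_add (a b : ℝ) : rot (a + b) = rot a * rot b := by
  ext i j
  fin_cases i <;> fin_cases j <;>
    simp [rot, Matrix.mul_apply, Fin.sum_univ_two, Real.cos_add, Real.sin_add] <;> ring

theorem rot_zero : rot 0 = 1 := by
  ext i j
  fin_cases i <;> fin_cases j <;> simp [rot]

theorem frame (θ b t : ℝ) (hθ : Real.sin θ ≠ 0) :
    st θ b * rot (t - θ) = rot t * (1 + WW θ b t) := by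
  have h1 : st θ b * rot (t - θ) = !![1, -(b / Real.sin θ); 0, 1] * rot t := by
    unfold st
    rw [Matrix.mul_assoc, ← rot_add]
    congr 2
    ring
  rw [h1]
  have hs := Real.sin_two_mul t
  have hc := Real.cos_two_mul t
  have hsc := Real.sin_sq_add_cos_sq t
  have hc2 : Real.cos (2 * t) = 1 - 2 * Real.sin t ^ 2 := by linarith
  have hb : b / Real.sin θ = 2 * (b / (2 * Real.sin θ)) := by field_simp
  rw [hb]
  unfold WW
  set β := b / (2 * Real.sin θ) with hβ
  ext i j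
  fin_cases i <;> fin_cases j <;>
    simp [rot, Matrix.mul_apply, Fin.sum_univ_two]
  · rw [hs, hc2]
    linear_combination (2 * β * Real.sin t) * hsc
  · rw [hs, hc2]
    ring
  · rw [hs, hc2]
    ring
  · rw [hs, hc2]
    linear_combination (-2 * β * Real.sin t) * hsc

theorem one_sub_WW (θ b t : ℝ) : 1 - WW θ b t =
    !![1 + b / (2 * Real.sin θ) * Real.sin (2 * t), b / (2 * Real.sin θ) * (1 + Real.cos (2 * t));
      b / (2 * Real.sin θ) * (Real.cos (2 * t) - 1),
      1 - b / (2 * Real.sin θ) * Real.sin (2 * t)] := by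
  ext i j
  fin_cases i <;> fin_cases j <;> simp [WW]

theorem one_add_WW (θ b t : ℝ) : 1 + WW θ b t =
    !![1 - b / (2 * Real.sin θ) * Real.sin (2 * t), -(b / (2 * Real.sin θ) * (1 + Real.cos (2 * t)));
      -(b / (2 * Real.sin θ) * (Real.cos (2 * t) - 1)),
      1 + b / (2 * Real.sin θ) * Real.sin (2 * t)] := by
  ext i j
  fin_cases i <;> fin_cases j <;> simp [WW] <;> ring

theorem WW_neg (θ b t : ℝ) : 1 + WW θ b (-t) = JJ * (1 - WW θ b t) * JJ := by
  rw [one_sub_WW, one_add_WW, JJ]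
  rw [Matrix.mul_fin_two, Matrix.mul_fin_two]
  rw [mul_neg, Real.sin_neg, Real.cos_neg]
  ext i j
  fin_cases i <;> fin_cases j <;> simp <;> ring

theorem adj_WW (θ b t : ℝ) : adjugate (1 + WW θ b t) = 1 - WW θ b t := by
  rw [one_sub_WW, one_add_WW, Matrix.adjugate_fin_two_of]
  ext i j
  fin_cases i <;> fin_cases j <;> simp

theorem right_prod (θ φ η : ℝ) (hθ : Real.sin θ ≠ 0) (n : ℕ) :
    Th θ ((List.range n).map (fun i => bb φ η (i + 1))) = rot (θ * n) * GG θ φ η n := by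
  induction n with
  | zero => simp [Th, GG, rot_zero]
  | succ n ih =>
    rw [List.range_succ, List.map_append, Th_append, ih]
    simp only [List.map_cons, List.map_nil, Th, Matrix.one_mul]
    have h := frame θ (bb φ η (n + 1)) (θ * ((n + 1 : ℕ) : ℝ)) hθ
    have e : θ * ((n + 1 : ℕ) : ℝ) - θ = θ * n := by push_cast; ring
    rw [e] at h
    rw [← Matrix.mul_assoc, h, GG, AA, Matrix.mul_assoc]

theorem left_prod (θ φ η : ℝ) (hθ : Real.sin θ ≠ 0) (n : ℕ) :
    Th θ ((List.range n).map (fun i => bb φ η (n - i))) =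
      rot (-θ) * (JJ * adjugate (GG θ φ η n) * JJ) * rot (θ * (n + 1)) := by
  induction n with
  | zero =>
    simp [Th, GG, JJ_sq, ← rot_add, rot_zero]
  | succ n ih =>
    rw [List.range_succ_eq_map, List.map_cons, List.map_map]
    have e0 : ((fun i => bb φ η (n + 1 - i)) ∘ Nat.succ) = fun i => bb φ η (n - i) := by
      funext i
      simp [Nat.succ_eq_add_one]
    rw [e0, Th, ih]
    simp only [Nat.sub_zero]
    have h := frame θ (bb φ η (n + 1)) (-(θ * ((n + 1 : ℕ) : ℝ))) hθ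
    -- st θ b = rot t (1 + W) rot (θ - t)
    have h2 : rot (θ * (n + 1)) * st θ (bb φ η (n + 1)) =
        (JJ * (1 - AA θ φ η (n + 1)) * JJ) * rot (θ * (((n + 1 : ℕ) : ℝ) + 1)) := by
      have h3 : st θ (bb φ η (n + 1)) = (st θ (bb φ η (n + 1)) *
          rot (-(θ * ((n + 1 : ℕ) : ℝ)) - θ)) * rot (θ * (((n + 1 : ℕ) : ℝ) + 1)) := by
        rw [Matrix.mul_assoc, ← rot_add]
        have : -(θ * ((n + 1 : ℕ) : ℝ)) - θ + θ * (((n + 1 : ℕ) : ℝ) + 1) = 0 := by ring
        rw [this, rot_zero, Matrix.mul_one]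
      rw [h3, h, WW_neg, ← Matrix.mul_assoc, ← Matrix.mul_assoc, ← rot_add]
      have : θ * ((n : ℝ) + 1) + -(θ * ((n + 1 : ℕ) : ℝ)) = 0 := by push_cast; ring
      rw [this, rot_zero, Matrix.one_mul]
      rfl
    rw [Matrix.mul_assoc, h2]
    have h4 : adjugate (GG θ φ η (n + 1)) =
        adjugate (GG θ φ η n) * (1 - AA θ φ η (n + 1)) := by
      rw [GG, Matrix.adjugate_mul_distrib, AA, adj_WW]
    rw [h4]
    have h5 : rot (-θ) * (JJ * adjugate (GG θ φ η n) * JJ) *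
        (JJ * (1 - AA θ φ η (n + 1)) * JJ * rot (θ * (((n + 1 : ℕ) : ℝ) + 1))) =
        rot (-θ) * (JJ * adjugate (GG θ φ η n) * (JJ * JJ) * (1 - AA θ φ η (n + 1)) * JJ) *
          rot (θ * (((n + 1 : ℕ) : ℝ) + 1)) := by
      simp only [Matrix.mul_assoc]
    rw [h5, JJ_sq, Matrix.mul_one]
    simp only [Matrix.mul_assoc]

theorem qf_eq (φ η : ℝ) (L : ℕ) : qf φ η L =
    (List.range (2 * L + 1)).map (fun i : ℕ => η * wv φ (((i : ℤ) - L).natAbs)) := by
  unfold qf
  have h : ∀ l : List ℕ, List.flatMap (fun a : ℕ => [(a : ℤ)]) l = l.map (fun a : ℕ => (a : ℤ)) :=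
    fun l => List.map_eq_flatMap.symm
  simp only [List.bind_eq_flatMap, List.pure_def]
  rw [h, List.map_map]
  rfl

theorem qf_split (φ η : ℝ) (L : ℕ) : qf φ η L =
    (List.range L).map (fun i => bb φ η (L - i)) ++
      (0 :: (List.range L).map (fun i => bb φ η (i + 1))) := by
  rw [qf_eq, show 2 * L + 1 = L + (L + 1) by ring, List.range_add, List.map_append, List.map_map,
    List.range_succ_eq_map]
  congr 1
  · apply List.map_congr_left
    intro i hi
    rw [List.mem_range] at hi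
    unfold bb
    congr 2
    omega
  · rw [List.map_cons, List.map_map]
    congr 1
    · simp [wv]
    · apply List.map_congr_left
      intro i _
      simp only [Function.comp_apply]
      unfold bb
      congr 2
      simp only [Nat.succ_eq_add_one]
      omega

theorem st_zero (θ : ℝ) : st θ 0 = rot θ := by
  unfold st
  have : (!![1, -(0 / Real.sin θ); 0, 1] : M2) = 1 := by
    ext i j
    fin_cases i <;> fin_cases j <;> simp
  rw [this, Matrix.one_mul]

theorem take_prod (θ φ η : ℝ) (hθ : Real.sin θ ≠ 0) (L : ℕ) :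
    Th θ ((qf φ η L).take L) =
      rot (-θ) * (JJ * adjugate (GG θ φ η L) * JJ) * rot (θ * (L + 1)) := by
  rw [qf_split, List.take_append_of_le_length (by simp), List.take_of_length_le (by simp),
    left_prod θ φ η hθ]

theorem whole_prod (θ φ η : ℝ) (hθ : Real.sin θ ≠ 0) (L : ℕ) :
    Th θ (qf φ η L) =
      rot (θ * L) * (GG θ φ η L * (JJ * adjugate (GG θ φ η L) * JJ)) * rot (θ * (L + 1)) := by
  rw [qf_split, Th_append, Th, right_prod θ φ η hθ, left_prod θ φ η hθ, st_zero]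
  have : rot θ * rot (-θ) = 1 := by rw [← rot_add, add_neg_cancel, rot_zero]
  calc rot (θ * L) * GG θ φ η L * rot θ *
        (rot (-θ) * (JJ * (GG θ φ η L).adjugate * JJ) * rot (θ * (L + 1)))
      = rot (θ * L) * GG θ φ η L * (rot θ * rot (-θ)) *
        ((JJ * (GG θ φ η L).adjugate * JJ) * rot (θ * (L + 1))) := by
        simp only [Matrix.mul_assoc]
    _ = _ := by
        rw [this, Matrix.mul_one]
        simp only [Matrix.mul_assoc]

theorem GG_det (θ φ η : ℝ) (n : ℕ) : (GG θ φ η n).det = 1 := by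
  induction n with
  | zero => simp [GG]
  | succ n ih =>
    rw [GG, Matrix.det_mul, ih, mul_one, Matrix.det_fin_two]
    simp [AA, WW]
    have hsc := Real.sin_sq_add_cos_sq (2 * (θ * ((n : ℝ) + 1)))
    linear_combination (-(bb φ η (n + 1) ^ 2 * (Real.sin θ)⁻¹ ^ 2 / 4)) * hsc

/-! ### Norms -/

section norms

attribute [local instance] Matrix.linftyOpNormedRing

theorem entry_le (A : M2) (i j : Fin 2) : |A i j| ≤ ‖A‖ := by
  rw [Matrix.linfty_opNorm_def]
  have h1 : ‖A i j‖₊ ≤ ∑ j, ‖A i j‖₊ :=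
    Finset.single_le_sum (f := fun j => ‖A i j‖₊) (fun _ _ => bot_le) (Finset.mem_univ j)
  have h2 : ∑ j, ‖A i j‖₊ ≤ Finset.univ.sup fun i => ∑ j, ‖A i j‖₊ :=
    Finset.le_sup (f := fun i => ∑ j, ‖A i j‖₊) (Finset.mem_univ i)
  have h3 := h1.trans h2
  have h4 : (‖A i j‖₊ : ℝ) = |A i j| := rfl
  rw [← h4]
  exact_mod_cast h3

theorem norm_le (A : M2) (K : ℝ) (hK : 0 ≤ K) (h : ∀ i, |A i 0| + |A i 1| ≤ K) : ‖A‖ ≤ K := by
  rw [Matrix.linfty_opNorm_def]
  have : (Finset.univ.sup fun i => ∑ j, ‖A i j‖₊) ≤ (⟨K, hK⟩ : NNReal) := by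
    apply Finset.sup_le
    intro i _
    rw [Fin.sum_univ_two]
    exact h i
  exact this

theorem norm_one_le : ‖(1 : M2)‖ ≤ 1 := by
  apply norm_le _ _ zero_le_one
  intro i
  fin_cases i
  · show |(1 : M2) 0 0| + |(1 : M2) 0 1| ≤ 1
    simp
  · show |(1 : M2) 1 0| + |(1 : M2) 1 1| ≤ 1
    simp

/-- The exponents. -/
noncomputable def al (θ φ η : ℝ) (m : ℕ) : ℝ :=
  -(η / (4 * Real.sin θ)) * (Real.cos (2 * (θ - φ) * ((m : ℝ) + 1)) / ((m : ℝ) + 1))

noncomputable def sg (θ φ η : ℝ) (n : ℕ) : ℝ := ∑ m ∈ Finset.range n, al θ φ η m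

noncomputable def QQ (θ φ η : ℝ) (n : ℕ) : M2 :=
  !![Real.exp (sg θ φ η n), 0; 0, Real.exp (-sg θ φ η n)]

noncomputable def DD (θ φ η : ℝ) (n : ℕ) : M2 :=
  !![Real.exp (al θ φ η n) - 1, 0; 0, Real.exp (-al θ φ η n) - 1]

noncomputable def EE (θ φ η : ℝ) (n : ℕ) : M2 := AA θ φ η (n + 1) - DD θ φ η n

theorem QQ_succ (θ φ η : ℝ) (n : ℕ) :
    QQ θ φ η (n + 1) = (1 + DD θ φ η n) * QQ θ φ η n := by
  ext i j
  fin_cases i <;> fin_cases j <;>
    simp [QQ, DD, Matrix.mul_apply, Fin.sum_univ_two, sg, Finset.sum_range_succ,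
      Real.exp_add] <;> ring

theorem sin_lower (θ : ℝ) (h : θ ∈ Set.Icc (Real.pi / 8) (3 * Real.pi / 8)) :
    1 / 4 ≤ Real.sin θ := by
  have hpi := Real.pi_pos
  have h1 := Real.mul_le_sin (x := θ) (by linarith [h.1]) (by linarith [h.2])
  have h2 : (2 / Real.pi) * (Real.pi / 8) = 1 / 4 := by field_simp; norm_num
  have h3 : (2 / Real.pi) * (Real.pi / 8) ≤ (2 / Real.pi) * θ := by
    have := h.1
    gcongr
  linarith

theorem sin_add_lower (θ φ : ℝ) (h : θ ∈ Set.Icc (Real.pi / 8) (3 * Real.pi / 8))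
    (h' : φ ∈ Set.Icc (Real.pi / 8) (3 * Real.pi / 8)) : 1 / 2 ≤ Real.sin (θ + φ) := by
  have hpi := Real.pi_pos
  have key : ∀ x, Real.pi / 4 ≤ x → x ≤ Real.pi / 2 → 1 / 2 ≤ Real.sin x := by
    intro x hx1 hx2
    have h1 := Real.mul_le_sin (x := x) (by linarith) hx2
    have h2 : (2 / Real.pi) * (Real.pi / 4) = 1 / 2 := by field_simp; norm_num
    have h3 : (2 / Real.pi) * (Real.pi / 4) ≤ (2 / Real.pi) * x := by gcongr
    linarith
  rcases le_total (θ + φ) (Real.pi / 2) with h1 | h1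
  · exact key _ (by linarith [h.1, h'.1]) h1
  · rw [← Real.sin_pi_sub]
    exact key _ (by linarith [h.2, h'.2]) (by linarith)

theorem kappa_le (θ η : ℝ) (h : θ ∈ Set.Icc (Real.pi / 8) (3 * Real.pi / 8)) (hη : 0 ≤ η) :
    η / (4 * Real.sin θ) ≤ η := by
  have := sin_lower θ h
  rw [div_le_iff₀ (by linarith)]
  nlinarith

theorem kappa_nonneg (θ η : ℝ) (h : θ ∈ Set.Icc (Real.pi / 8) (3 * Real.pi / 8)) (hη : 0 ≤ η) :
    0 ≤ η / (4 * Real.sin θ) := by
  have := sin_lower θ h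
  positivity

theorem al_le (θ φ η : ℝ) (h : θ ∈ Set.Icc (Real.pi / 8) (3 * Real.pi / 8)) (hη : 0 ≤ η)
    (m : ℕ) : |al θ φ η m| ≤ η / ((m : ℝ) + 1) := by
  unfold al
  have hp : (0 : ℝ) < (m : ℝ) + 1 := by positivity
  rw [abs_mul, abs_neg, abs_of_nonneg (kappa_nonneg θ η h hη), abs_div, abs_of_pos hp]
  have h1 := Real.abs_cos_le_one (2 * (θ - φ) * ((m : ℝ) + 1))
  calc η / (4 * Real.sin θ) * (|Real.cos (2 * (θ - φ) * ((m : ℝ) + 1))| / ((m : ℝ) + 1))
      ≤ η * (1 / ((m : ℝ) + 1)) := by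
        have := kappa_le θ η h hη
        gcongr
    _ = _ := by ring

theorem DD_norm (θ φ η : ℝ) (h : θ ∈ Set.Icc (Real.pi / 8) (3 * Real.pi / 8)) (hη : 0 ≤ η)
    (hη1 : η ≤ 1) (m : ℕ) : ‖DD θ φ η m‖ ≤ 8 * η / ((m : ℝ) + 1) := by
  have hp : (0 : ℝ) < (m : ℝ) + 1 := by positivity
  have h1 := al_le θ φ η h hη m
  have h2 : η / ((m : ℝ) + 1) ≤ 1 := by
    rw [div_le_one hp]
    have : (0 : ℝ) ≤ m := Nat.cast_nonneg m
    linarith
  have h3 := Real.abs_exp_sub_one_le (x := al θ φ η m) (h1.trans h2)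
  have h4 := Real.abs_exp_sub_one_le (x := -al θ φ η m) (by rw [abs_neg]; exact h1.trans h2)
  rw [abs_neg] at h4
  have e : 8 * η / ((m : ℝ) + 1) = 8 * (η / ((m : ℝ) + 1)) := by ring
  have h0 : 0 ≤ η / ((m : ℝ) + 1) := by positivity
  rw [e]
  apply norm_le _ _ (by positivity)
  intro i
  fin_cases i
  · simp [DD]
    linarith
  · simp [DD]
    linarith

theorem AA_norm (θ φ η : ℝ) (h : θ ∈ Set.Icc (Real.pi / 8) (3 * Real.pi / 8)) (hη : 0 ≤ η)
    (m : ℕ) : ‖AA θ φ η (m + 1)‖ ≤ 8 * η / ((m : ℝ) + 1) := by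
  have hp : (0 : ℝ) < (m : ℝ) + 1 := by positivity
  have hs := sin_lower θ h
  have hb : |bb φ η (m + 1) / (2 * Real.sin θ)| ≤ 2 * (η / ((m : ℝ) + 1)) := by
    unfold bb wv
    push_cast
    rw [abs_div, abs_mul, abs_div, abs_of_nonneg hη, abs_of_pos hp,
      abs_of_pos (show 0 < 2 * Real.sin θ by linarith), div_le_iff₀ (by linarith)]
    have h1 := Real.abs_sin_le_one (2 * φ * ((m : ℝ) + 1))
    calc η * (|Real.sin (2 * φ * ((m : ℝ) + 1))| / ((m : ℝ) + 1))
        ≤ η * (1 / ((m : ℝ) + 1)) := by gcongr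
      _ = 2 * (η / ((m : ℝ) + 1)) * (2 * (1 / 4)) := by ring
      _ ≤ 2 * (η / ((m : ℝ) + 1)) * (2 * Real.sin θ) := by
        have : 0 ≤ η / ((m : ℝ) + 1) := by positivity
        gcongr
  have e : 8 * η / ((m : ℝ) + 1) = 8 * (η / ((m : ℝ) + 1)) := by ring
  have h0 : 0 ≤ η / ((m : ℝ) + 1) := by positivity
  rw [e]
  set β := bb φ η (m + 1) / (2 * Real.sin θ) with hβ
  set t := θ * ((m + 1 : ℕ) : ℝ) with ht
  have hsn := Real.abs_sin_le_one (2 * t)
  have hcs := abs_le.1 (Real.abs_cos_le_one (2 * t))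
  have hcs1 : |1 + Real.cos (2 * t)| ≤ 2 := by rw [abs_le]; constructor <;> linarith
  have hcs2 : |Real.cos (2 * t) - 1| ≤ 2 := by rw [abs_le]; constructor <;> linarith
  have e1 : ∀ x, |x| ≤ 1 → |β * x| ≤ 2 * (η / ((m : ℝ) + 1)) := by
    intro x hx
    rw [abs_mul]
    calc |β| * |x| ≤ |β| * 1 := by gcongr
      _ ≤ _ := by rw [mul_one]; exact hb
  have e2 : ∀ x, |x| ≤ 2 → |β * x| ≤ 4 * (η / ((m : ℝ) + 1)) := by
    intro x hx
    rw [abs_mul]
    calc |β| * |x| ≤ (2 * (η / ((m : ℝ) + 1))) * 2 := by gcongr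
      _ = _ := by ring
  have a1 := e1 _ hsn
  have a2 := e2 _ hcs1
  have a3 := e2 _ hcs2
  apply norm_le _ _ (by positivity)
  intro i
  unfold AA WW
  rw [← hβ, ← ht]
  fin_cases i
  · simp only [Matrix.smul_apply, Fin.zero_eta, Matrix.of_apply, Matrix.cons_val_zero,
      Matrix.cons_val_one, smul_eq_mul, neg_mul, abs_neg]
    linarith
  · simp only [Matrix.smul_apply, Fin.mk_one, Matrix.of_apply, Matrix.cons_val_zero,
      Matrix.cons_val_one, smul_eq_mul, neg_mul, abs_neg]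
    rw [show β * -(1 - Real.cos (2 * t)) = β * (Real.cos (2 * t) - 1) by ring,
      show β * -Real.sin (2 * t) = -(β * Real.sin (2 * t)) by ring, abs_neg]
    linarith

theorem cos_sum_two (θ φ : ℝ) (h : θ ∈ Set.Icc (Real.pi / 8) (3 * Real.pi / 8))
    (h' : φ ∈ Set.Icc (Real.pi / 8) (3 * Real.pi / 8)) (n : ℕ) :
    |∑ m ∈ Finset.range n, Real.cos (2 * (θ + φ) * ((m : ℝ) + 1)) / ((m : ℝ) + 1)| ≤ 2 := by
  have h1 := sin_add_lower θ φ h h'
  have e : 2 * (θ + φ) / 2 = θ + φ := by ring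
  have h2 := cos_sum_le (2 * (θ + φ)) (by rw [e]; linarith) n
  rw [e, abs_of_pos (a := Real.sin (θ + φ)) (by linarith)] at h2
  refine h2.trans ?_
  rw [div_le_iff₀ (by linarith)]
  linarith

theorem exp_err (θ φ η : ℝ) (h : θ ∈ Set.Icc (Real.pi / 8) (3 * Real.pi / 8)) (hη : 0 ≤ η)
    (hη1 : η ≤ 1) (ε : ℝ) (hε : ε = 1 ∨ ε = -1) (n : ℕ) :
    |∑ m ∈ Finset.range n, (1 + ε * al θ φ η m - Real.exp (ε * al θ φ η m))| ≤ 2 * η := by
  have hterm : ∀ m : ℕ, |1 + ε * al θ φ η m - Real.exp (ε * al θ φ η m)| ≤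
      η * (1 / ((m : ℝ) + 1) ^ 2) := by
    intro m
    have hp : (0 : ℝ) < (m : ℝ) + 1 := by positivity
    have h1 := al_le θ φ η h hη m
    have hε1 : |ε| = 1 := by rcases hε with rfl | rfl <;> simp
    have h2 : |ε * al θ φ η m| ≤ η / ((m : ℝ) + 1) := by rw [abs_mul, hε1, one_mul]; exact h1
    have h3 : η / ((m : ℝ) + 1) ≤ 1 := by
      rw [div_le_one hp]
      have : (0 : ℝ) ≤ m := Nat.cast_nonneg m
      linarith
    have h4 := Real.abs_exp_sub_one_sub_id_le (x := ε * al θ φ η m) (h2.trans h3)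
    have e : 1 + ε * al θ φ η m - Real.exp (ε * al θ φ η m) =
        -(Real.exp (ε * al θ φ η m) - 1 - ε * al θ φ η m) := by ring
    rw [e, abs_neg]
    refine h4.trans ?_
    have h5 : (ε * al θ φ η m) ^ 2 ≤ (η / ((m : ℝ) + 1)) ^ 2 := by
      rw [← sq_abs]
      exact pow_le_pow_left₀ (abs_nonneg _) h2 2
    refine h5.trans ?_
    rw [div_pow, mul_one_div]
    have : η ^ 2 ≤ η := by nlinarith
    gcongr
  calc |∑ m ∈ Finset.range n, (1 + ε * al θ φ η m - Real.exp (ε * al θ φ η m))|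
      ≤ ∑ m ∈ Finset.range n, |1 + ε * al θ φ η m - Real.exp (ε * al θ φ η m)| :=
        Finset.abs_sum_le_sum_abs _ _
    _ ≤ ∑ m ∈ Finset.range n, η * (1 / ((m : ℝ) + 1) ^ 2) := Finset.sum_le_sum fun m _ => hterm m
    _ = η * ∑ m ∈ Finset.range n, (1 / ((m : ℝ) + 1) ^ 2) := by rw [Finset.mul_sum]
    _ ≤ η * 2 := by
      have := inv_sq_sum_le n
      gcongr
    _ = 2 * η := by ring

theorem E00 (θ φ η : ℝ) (hs : Real.sin θ ≠ 0) (m : ℕ) : EE θ φ η m 0 0 =
    η / (4 * Real.sin θ) * (Real.cos (2 * (θ + φ) * ((m : ℝ) + 1)) / ((m : ℝ) + 1)) +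
      (1 + 1 * al θ φ η m - Real.exp (1 * al θ φ η m)) := by
  have hp : ((m : ℝ) + 1) ≠ 0 := by positivity
  have e : EE θ φ η m 0 0 = -(bb φ η (m + 1) / (2 * Real.sin θ)) *
      Real.sin (2 * (θ * ((m + 1 : ℕ) : ℝ))) - (Real.exp (al θ φ η m) - 1) := by
    simp [EE, DD, AA, WW]
  rw [e]
  unfold bb wv al
  push_cast
  have h1 : Real.cos (2 * (θ + φ) * ((m : ℝ) + 1)) =
      Real.cos (2 * (θ * ((m : ℝ) + 1))) * Real.cos (2 * φ * ((m : ℝ) + 1)) -
      Real.sin (2 * (θ * ((m : ℝ) + 1))) * Real.sin (2 * φ * ((m : ℝ) + 1)) := by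
    rw [← Real.cos_add]; congr 1; ring
  have h2 : Real.cos (2 * (θ - φ) * ((m : ℝ) + 1)) =
      Real.cos (2 * (θ * ((m : ℝ) + 1))) * Real.cos (2 * φ * ((m : ℝ) + 1)) +
      Real.sin (2 * (θ * ((m : ℝ) + 1))) * Real.sin (2 * φ * ((m : ℝ) + 1)) := by
    rw [← Real.cos_sub]; congr 1; ring
  simp only [one_mul]
  rw [h1]
  have h3 : ∀ x : ℝ, x = Real.cos (2 * (θ - φ) * ((m : ℝ) + 1)) →
      -(η * (Real.sin (2 * φ * ((m : ℝ) + 1)) / ((m : ℝ) + 1)) / (2 * Real.sin θ)) *
        Real.sin (2 * (θ * ((m : ℝ) + 1))) =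
      η / (4 * Real.sin θ) * ((Real.cos (2 * (θ * ((m : ℝ) + 1))) *
        Real.cos (2 * φ * ((m : ℝ) + 1)) -
      Real.sin (2 * (θ * ((m : ℝ) + 1))) * Real.sin (2 * φ * ((m : ℝ) + 1))) / ((m : ℝ) + 1)) +
      -(η / (4 * Real.sin θ)) * (x / ((m : ℝ) + 1)) := by
    intro x hx
    rw [hx, h2]
    field_simp
    ring
  linear_combination h3 _ rfl

theorem E11 (θ φ η : ℝ) (hs : Real.sin θ ≠ 0) (m : ℕ) : EE θ φ η m 1 1 =
    -(η / (4 * Real.sin θ)) * (Real.cos (2 * (θ + φ) * ((m : ℝ) + 1)) / ((m : ℝ) + 1)) +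
      (1 + (-1) * al θ φ η m - Real.exp ((-1) * al θ φ η m)) := by
  have e0 : AA θ φ η (m + 1) 1 1 = -AA θ φ η (m + 1) 0 0 := by
    simp [AA, WW]
  have e1 : EE θ φ η m 1 1 = -AA θ φ η (m + 1) 0 0 - (Real.exp (-al θ φ η m) - 1) := by
    rw [← e0]
    simp [EE, DD]
  have e2 : EE θ φ η m 0 0 = AA θ φ η (m + 1) 0 0 - (Real.exp (al θ φ η m) - 1) := by
    simp [EE, DD]
  have h := E00 θ φ η hs m
  rw [e2] at h
  rw [e1]
  simp only [one_mul, neg_mul] at h ⊢
  linear_combination -h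

theorem E01 (θ φ η : ℝ) (m : ℕ) : EE θ φ η m 0 1 =
    -(η / (2 * Real.sin θ)) * (Real.sin (2 * φ * ((m : ℝ) + 1)) / ((m : ℝ) + 1) +
      (1 / 2) * (Real.sin (2 * (θ + φ) * ((m : ℝ) + 1)) / ((m : ℝ) + 1)) +
      (1 / 2) * (Real.sin (2 * (φ - θ) * ((m : ℝ) + 1)) / ((m : ℝ) + 1))) := by
  have e : EE θ φ η m 0 1 = -(bb φ η (m + 1) / (2 * Real.sin θ)) *
      (1 + Real.cos (2 * (θ * ((m + 1 : ℕ) : ℝ)))) := by
    simp [EE, DD, AA, WW]
  rw [e]
  unfold bb wv
  push_cast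
  have h1 : Real.sin (2 * (θ + φ) * ((m : ℝ) + 1)) =
      Real.sin (2 * φ * ((m : ℝ) + 1)) * Real.cos (2 * (θ * ((m : ℝ) + 1))) +
      Real.cos (2 * φ * ((m : ℝ) + 1)) * Real.sin (2 * (θ * ((m : ℝ) + 1))) := by
    rw [← Real.sin_add]; congr 1; ring
  have h2 : Real.sin (2 * (φ - θ) * ((m : ℝ) + 1)) =
      Real.sin (2 * φ * ((m : ℝ) + 1)) * Real.cos (2 * (θ * ((m : ℝ) + 1))) -
      Real.cos (2 * φ * ((m : ℝ) + 1)) * Real.sin (2 * (θ * ((m : ℝ) + 1))) := by
    rw [← Real.sin_sub]; congr 1; ring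
  rw [h1, h2]
  ring

theorem E10 (θ φ η : ℝ) (m : ℕ) : EE θ φ η m 1 0 =
    (η / (2 * Real.sin θ)) * (Real.sin (2 * φ * ((m : ℝ) + 1)) / ((m : ℝ) + 1) -
      (1 / 2) * (Real.sin (2 * (θ + φ) * ((m : ℝ) + 1)) / ((m : ℝ) + 1)) -
      (1 / 2) * (Real.sin (2 * (φ - θ) * ((m : ℝ) + 1)) / ((m : ℝ) + 1))) := by
  have e : EE θ φ η m 1 0 = (bb φ η (m + 1) / (2 * Real.sin θ)) *
      (1 - Real.cos (2 * (θ * ((m + 1 : ℕ) : ℝ)))) := by
    simp [EE, DD, AA, WW]
    ring
  rw [e]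
  unfold bb wv
  push_cast
  have h1 : Real.sin (2 * (θ + φ) * ((m : ℝ) + 1)) =
      Real.sin (2 * φ * ((m : ℝ) + 1)) * Real.cos (2 * (θ * ((m : ℝ) + 1))) +
      Real.cos (2 * φ * ((m : ℝ) + 1)) * Real.sin (2 * (θ * ((m : ℝ) + 1))) := by
    rw [← Real.sin_add]; congr 1; ring
  have h2 : Real.sin (2 * (φ - θ) * ((m : ℝ) + 1)) =
      Real.sin (2 * φ * ((m : ℝ) + 1)) * Real.cos (2 * (θ * ((m : ℝ) + 1))) -
      Real.cos (2 * φ * ((m : ℝ) + 1)) * Real.sin (2 * (θ * ((m : ℝ) + 1))) := by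
    rw [← Real.sin_sub]; congr 1; ring
  rw [h1, h2]
  ring

theorem EE_sum (θ φ η : ℝ) (h : θ ∈ Set.Icc (Real.pi / 8) (3 * Real.pi / 8))
    (h' : φ ∈ Set.Icc (Real.pi / 8) (3 * Real.pi / 8)) (hη : 0 ≤ η) (hη1 : η ≤ 1) (n : ℕ) :
    ‖∑ m ∈ Finset.range n, EE θ φ η m‖ ≤ 20 * η := by
  have hs := sin_lower θ h
  have hs0 : Real.sin θ ≠ 0 := by linarith
  have hκ := kappa_le θ η h hη
  have hκ0 := kappa_nonneg θ η h hη
  have hκ2 : η / (2 * Real.sin θ) = 2 * (η / (4 * Real.sin θ)) := by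
    field_simp
    norm_num
  have hc := cos_sum_two θ φ h h' n
  have hd : |η / (4 * Real.sin θ) * ∑ m ∈ Finset.range n,
      (Real.cos (2 * (θ + φ) * ((m : ℝ) + 1)) / ((m : ℝ) + 1))| ≤ 2 * η := by
    rw [abs_mul, abs_of_nonneg hκ0]
    calc _ ≤ η * 2 := by gcongr
      _ = _ := by ring
  have h00 : |(∑ m ∈ Finset.range n, EE θ φ η m) 0 0| ≤ 4 * η := by
    rw [Matrix.sum_apply]
    have e : ∑ m ∈ Finset.range n, EE θ φ η m 0 0 =
        η / (4 * Real.sin θ) * ∑ m ∈ Finset.range n,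
          (Real.cos (2 * (θ + φ) * ((m : ℝ) + 1)) / ((m : ℝ) + 1)) +
        ∑ m ∈ Finset.range n, (1 + 1 * al θ φ η m - Real.exp (1 * al θ φ η m)) := by
      rw [Finset.mul_sum, ← Finset.sum_add_distrib]
      exact Finset.sum_congr rfl fun m _ => E00 θ φ η hs0 m
    rw [e]
    have h1 := exp_err θ φ η h hη hη1 1 (Or.inl rfl) n
    have h2 := abs_add_le (η / (4 * Real.sin θ) * ∑ m ∈ Finset.range n,
          (Real.cos (2 * (θ + φ) * ((m : ℝ) + 1)) / ((m : ℝ) + 1)))
        (∑ m ∈ Finset.range n, (1 + 1 * al θ φ η m - Real.exp (1 * al θ φ η m)))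
    linarith
  have h11 : |(∑ m ∈ Finset.range n, EE θ φ η m) 1 1| ≤ 4 * η := by
    rw [Matrix.sum_apply]
    have e : ∑ m ∈ Finset.range n, EE θ φ η m 1 1 =
        -(η / (4 * Real.sin θ) * ∑ m ∈ Finset.range n,
          (Real.cos (2 * (θ + φ) * ((m : ℝ) + 1)) / ((m : ℝ) + 1))) +
        ∑ m ∈ Finset.range n, (1 + (-1) * al θ φ η m - Real.exp ((-1) * al θ φ η m)) := by
      rw [Finset.mul_sum, ← Finset.sum_neg_distrib, ← Finset.sum_add_distrib]
      refine Finset.sum_congr rfl fun m _ => ?_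
      rw [E11 θ φ η hs0 m]
      ring
    rw [e]
    have h1 := exp_err θ φ η h hη hη1 (-1) (Or.inr rfl) n
    have h2 := abs_add_le (-(η / (4 * Real.sin θ) * ∑ m ∈ Finset.range n,
          (Real.cos (2 * (θ + φ) * ((m : ℝ) + 1)) / ((m : ℝ) + 1))))
        (∑ m ∈ Finset.range n, (1 + (-1) * al θ φ η m - Real.exp ((-1) * al θ φ η m)))
    rw [abs_neg] at h2
    linarith
  have hs1 := sin_sum_le (2 * φ) n
  have hs2 := sin_sum_le (2 * (θ + φ)) n
  have hs3 := sin_sum_le (2 * (φ - θ)) n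
  rw [abs_le] at hs1 hs2 hs3
  have h01 : |(∑ m ∈ Finset.range n, EE θ φ η m) 0 1| ≤ 16 * η := by
    rw [Matrix.sum_apply]
    have e : ∑ m ∈ Finset.range n, EE θ φ η m 0 1 =
        -(η / (2 * Real.sin θ)) * (∑ m ∈ Finset.range n,
          Real.sin (2 * φ * ((m : ℝ) + 1)) / ((m : ℝ) + 1) +
        (1 / 2) * ∑ m ∈ Finset.range n,
          Real.sin (2 * (θ + φ) * ((m : ℝ) + 1)) / ((m : ℝ) + 1) +
        (1 / 2) * ∑ m ∈ Finset.range n,
          Real.sin (2 * (φ - θ) * ((m : ℝ) + 1)) / ((m : ℝ) + 1)) := by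
      rw [Finset.mul_sum, Finset.mul_sum, ← Finset.sum_add_distrib, ← Finset.sum_add_distrib,
        Finset.mul_sum]
      exact Finset.sum_congr rfl fun m _ => E01 θ φ η m
    rw [e, abs_mul, abs_neg, hκ2, abs_of_nonneg (a := 2 * (η / (4 * Real.sin θ))) (by positivity)]
    calc 2 * (η / (4 * Real.sin θ)) * |_| ≤ 2 * η * 8 := by
          apply mul_le_mul (by linarith) _ (abs_nonneg _) (by linarith)
          rw [abs_le]
          constructor <;> linarith
      _ = 16 * η := by ring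
  have h10 : |(∑ m ∈ Finset.range n, EE θ φ η m) 1 0| ≤ 16 * η := by
    rw [Matrix.sum_apply]
    have e : ∑ m ∈ Finset.range n, EE θ φ η m 1 0 =
        (η / (2 * Real.sin θ)) * (∑ m ∈ Finset.range n,
          Real.sin (2 * φ * ((m : ℝ) + 1)) / ((m : ℝ) + 1) -
        (1 / 2) * ∑ m ∈ Finset.range n,
          Real.sin (2 * (θ + φ) * ((m : ℝ) + 1)) / ((m : ℝ) + 1) -
        (1 / 2) * ∑ m ∈ Finset.range n,
          Real.sin (2 * (φ - θ) * ((m : ℝ) + 1)) / ((m : ℝ) + 1)) := by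
      rw [Finset.mul_sum, Finset.mul_sum, ← Finset.sum_sub_distrib, ← Finset.sum_sub_distrib,
        Finset.mul_sum]
      exact Finset.sum_congr rfl fun m _ => E10 θ φ η m
    rw [e, abs_mul, hκ2, abs_of_nonneg (a := 2 * (η / (4 * Real.sin θ))) (by positivity)]
    calc 2 * (η / (4 * Real.sin θ)) * |_| ≤ 2 * η * 8 := by
          apply mul_le_mul (by linarith) _ (abs_nonneg _) (by linarith)
          rw [abs_le]
          constructor <;> linarith
      _ = 16 * η := by ring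
  apply norm_le _ _ (by positivity)
  intro i
  fin_cases i
  · show |(∑ m ∈ Finset.range n, EE θ φ η m) 0 0| + |(∑ m ∈ Finset.range n, EE θ φ η m) 0 1| ≤ _
    linarith
  · show |(∑ m ∈ Finset.range n, EE θ φ η m) 1 0| + |(∑ m ∈ Finset.range n, EE θ φ η m) 1 1| ≤ _
    linarith

theorem harm (n : ℕ) : ∑ m ∈ Finset.range n, 1 / ((m : ℝ) + 1) ≤ 1 + Real.log n := by
  have h := harmonic_le_one_add_log n
  refine le_trans (le_of_eq ?_) h
  simp [harmonic]

theorem G_close (θ φ η : ℝ) (h : θ ∈ Set.Icc (Real.pi / 8) (3 * Real.pi / 8))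
    (h' : φ ∈ Set.Icc (Real.pi / 8) (3 * Real.pi / 8)) (hη : 0 ≤ η) (hη1 : η ≤ 1) (n : ℕ) :
    ‖GG θ φ η n - QQ θ φ η n‖ ≤
      2 * (20 * η) * Real.exp (2 * (8 * (η * (1 + Real.log n)))) := by
  apply perturb norm_one_le (GG θ φ η) (QQ θ φ η) (DD θ φ η) (EE θ φ η)
    (fun m => 8 * η / ((m : ℝ) + 1)) (20 * η) (8 * (η * (1 + Real.log n))) rfl
  · ext i j
    fin_cases i <;> fin_cases j <;> simp [QQ, sg]
  · intro m
    rw [GG, EE]
    congr 1
    abel
  · exact QQ_succ θ φ η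
  · exact DD_norm θ φ η h hη hη1
  · intro m
    have : DD θ φ η m + EE θ φ η m = AA θ φ η (m + 1) := by
      rw [EE]
      abel
    rw [this]
    exact AA_norm θ φ η h hη m
  · exact EE_sum θ φ η h h' hη hη1
  · have h1 := harm n
    calc ∑ m ∈ Finset.range n, 8 * η / ((m : ℝ) + 1)
        = 8 * η * ∑ m ∈ Finset.range n, 1 / ((m : ℝ) + 1) := by
          rw [Finset.mul_sum]
          exact Finset.sum_congr rfl fun m _ => by ring
      _ ≤ 8 * η * (1 + Real.log n) := by gcongr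
      _ = _ := by ring

theorem sg_le (θ φ η : ℝ) (h : θ ∈ Set.Icc (Real.pi / 8) (3 * Real.pi / 8)) (hη : 0 ≤ η)
    (n : ℕ) : |sg θ φ η n| ≤ 8 * (η * (1 + Real.log n)) := by
  unfold sg
  have h1 := harm n
  calc |∑ m ∈ Finset.range n, al θ φ η m| ≤ ∑ m ∈ Finset.range n, |al θ φ η m| :=
        Finset.abs_sum_le_sum_abs _ _
    _ ≤ ∑ m ∈ Finset.range n, η / ((m : ℝ) + 1) :=
        Finset.sum_le_sum fun m _ => al_le θ φ η h hη m
    _ ≤ ∑ m ∈ Finset.range n, 8 * (η / ((m : ℝ) + 1)) := by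
        apply Finset.sum_le_sum
        intro m _
        have : 0 ≤ η / ((m : ℝ) + 1) := by positivity
        linarith
    _ = 8 * (η * ∑ m ∈ Finset.range n, 1 / ((m : ℝ) + 1)) := by
        rw [Finset.mul_sum, Finset.mul_sum]
        exact Finset.sum_congr rfl fun m _ => by ring
    _ ≤ 8 * (η * (1 + Real.log n)) := by gcongr

/-- All entries of `G`. -/
theorem G_entries (θ φ η : ℝ) (h : θ ∈ Set.Icc (Real.pi / 8) (3 * Real.pi / 8))
    (h' : φ ∈ Set.Icc (Real.pi / 8) (3 * Real.pi / 8)) (hη : 0 ≤ η) (hη1 : η ≤ 1) (n : ℕ) :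
    |GG θ φ η n 0 0 - Real.exp (sg θ φ η n)| ≤
      2 * (20 * η) * Real.exp (2 * (8 * (η * (1 + Real.log n)))) ∧
    |GG θ φ η n 0 1| ≤ 2 * (20 * η) * Real.exp (2 * (8 * (η * (1 + Real.log n)))) ∧
    |GG θ φ η n 1 0| ≤ 2 * (20 * η) * Real.exp (2 * (8 * (η * (1 + Real.log n)))) ∧
    |GG θ φ η n 1 1 - Real.exp (-sg θ φ η n)| ≤
      2 * (20 * η) * Real.exp (2 * (8 * (η * (1 + Real.log n)))) := by
  have hG := G_close θ φ η h h' hη hη1 n
  have h00 := (entry_le _ 0 0).trans hG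
  have h01 := (entry_le _ 0 1).trans hG
  have h10 := (entry_le _ 1 0).trans hG
  have h11 := (entry_le _ 1 1).trans hG
  rw [Matrix.sub_apply] at h00 h01 h10 h11
  refine ⟨?_, ?_, ?_, ?_⟩
  · simpa [QQ] using h00
  · simpa [QQ] using h01
  · simpa [QQ] using h10
  · simpa [QQ] using h11

end norms

theorem ns_rot_mul (t : ℝ) (A : M2) : ns (rot t * A) = ns A := by
  simp only [ns, rot, Matrix.mul_apply, Fin.sum_univ_two, Matrix.of_apply, Matrix.cons_val_zero,
    Matrix.cons_val_one, Matrix.cons_val']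
  have h := Real.sin_sq_add_cos_sq t
  linear_combination (A 0 0 ^ 2 + A 0 1 ^ 2 + A 1 0 ^ 2 + A 1 1 ^ 2) * h

theorem ns_mul_rot (t : ℝ) (A : M2) : ns (A * rot t) = ns A := by
  simp only [ns, rot, Matrix.mul_apply, Fin.sum_univ_two, Matrix.of_apply, Matrix.cons_val_zero,
    Matrix.cons_val_one, Matrix.cons_val']
  have h := Real.sin_sq_add_cos_sq t
  linear_combination (A 0 0 ^ 2 + A 0 1 ^ 2 + A 1 0 ^ 2 + A 1 1 ^ 2) * h

theorem JadjJ (A : M2) : JJ * adjugate A * JJ = !![A 1 1, A 0 1; A 1 0, A 0 0] := by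
  rw [Matrix.adjugate_fin_two]
  unfold JJ
  rw [Matrix.mul_fin_two, Matrix.mul_fin_two]
  ext i j
  fin_cases i <;> fin_cases j <;> simp

theorem rot_entry (t : ℝ) (i j : Fin 2) : |rot t i j| ≤ 1 := by
  fin_cases i <;> fin_cases j
  · simpa [rot] using Real.abs_cos_le_one t
  · simpa [rot] using Real.abs_sin_le_one t
  · simpa [rot] using Real.abs_sin_le_one t
  · simpa [rot] using Real.abs_cos_le_one t

theorem sandwich (a b : ℝ) (K : M2) (κ : ℝ) (hK : ∀ i j, |K i j| ≤ κ) (i j : Fin 2) :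
    |(rot a * K * rot b) i j| ≤ 4 * κ := by
  have hκ : 0 ≤ κ := (abs_nonneg _).trans (hK 0 0)
  have key : ∀ k l : Fin 2, |rot a i k * K k l * rot b l j| ≤ κ := by
    intro k l
    rw [abs_mul, abs_mul]
    calc |rot a i k| * |K k l| * |rot b l j| ≤ 1 * κ * 1 := by
          have h1 := rot_entry a i k
          have h2 := rot_entry b l j
          have h3 := hK k l
          gcongr
      _ = κ := by ring
  have e : (rot a * K * rot b) i j =
      rot a i 0 * K 0 0 * rot b 0 j + rot a i 1 * K 1 0 * rot b 0 j +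
      (rot a i 0 * K 0 1 * rot b 1 j + rot a i 1 * K 1 1 * rot b 1 j) := by
    simp only [Matrix.mul_apply, Fin.sum_univ_two]
    ring
  rw [e]
  have t1 := abs_add_le (rot a i 0 * K 0 0 * rot b 0 j + rot a i 1 * K 1 0 * rot b 0 j)
    (rot a i 0 * K 0 1 * rot b 1 j + rot a i 1 * K 1 1 * rot b 1 j)
  have t2 := abs_add_le (rot a i 0 * K 0 0 * rot b 0 j) (rot a i 1 * K 1 0 * rot b 0 j)
  have t3 := abs_add_le (rot a i 0 * K 0 1 * rot b 1 j) (rot a i 1 * K 1 1 * rot b 1 j)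
  have k1 := key 0 0
  have k2 := key 1 0
  have k3 := key 0 1
  have k4 := key 1 1
  linarith

theorem sum_Icc_one (f : ℕ → ℝ) (L : ℕ) :
    ∑ m ∈ Finset.Icc 1 L, f m = ∑ m ∈ Finset.range L, f (m + 1) := by
  induction L with
  | zero => simp
  | succ n ih => rw [Finset.sum_Icc_succ_top (by omega), Finset.sum_range_succ, ih]

theorem wvn : ∃ C : ℝ, 0 < C ∧ ∀ θ φ η : ℝ, θ ∈ Set.Icc (Real.pi / 8) (3 * Real.pi / 8) →
    φ ∈ Set.Icc (Real.pi / 8) (3 * Real.pi / 8) → 0 ≤ η → η ≤ 1 → ∀ L : ℕ, 1 ≤ L →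
    (∀ i j, |Th θ (qf φ η L) i j - rot ((2 * L + 1) * θ) i j| ≤
      C * Real.exp (C * (η * (1 + Real.log L))) * η) ∧
    |ns (Th θ ((qf φ η L).take L)) -
      (Real.exp (2 * (η / (4 * Real.sin θ) *
        ∑ m ∈ Finset.Icc 1 L, Real.cos (2 * (θ - φ) * m) / m)) +
      Real.exp (-(2 * (η / (4 * Real.sin θ) *
        ∑ m ∈ Finset.Icc 1 L, Real.cos (2 * (θ - φ) * m) / m))))| ≤
      C * Real.exp (C * (η * (1 + Real.log L))) * η := by
  refine ⟨13120, by norm_num, ?_⟩
  intro θ φ η hθ hφ hη hη1 L hL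
  have hs := sin_lower θ hθ
  have hs0 : Real.sin θ ≠ 0 := by linarith
  have hlog : 0 ≤ Real.log L := Real.log_natCast_nonneg L
  have hU0 : 0 ≤ η * (1 + Real.log L) := by positivity
  set U := η * (1 + Real.log L) with hU
  obtain ⟨g00, g01, g10, g11⟩ := G_entries θ φ η hθ hφ hη hη1 L
  have hsg := sg_le θ φ η hθ hη L
  rw [← hU] at g00 g01 g10 g11 hsg
  have hdet := GG_det θ φ η L
  rw [Matrix.det_fin_two] at hdet
  set p := GG θ φ η L 0 0 with hp
  set q := GG θ φ η L 0 1 with hq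
  set u := GG θ φ η L 1 0 with hu
  set v := GG θ φ η L 1 1 with hv
  set σ := sg θ φ η L with hσ
  set X := Real.exp (8 * U) with hX
  have hX1 : 1 ≤ X := Real.one_le_exp (by positivity)
  have hX2 : Real.exp (2 * (8 * U)) = X ^ 2 := by
    rw [hX, ← Real.exp_nat_mul]
    norm_num
  rw [hX2] at g00 g01 g10 g11
  have hσ' := abs_le.1 hsg
  have he1 : Real.exp σ ≤ X := Real.exp_le_exp.2 hσ'.2
  have he2 : Real.exp (-σ) ≤ X := Real.exp_le_exp.2 (by linarith [hσ'.1])
  have he1' := Real.exp_pos σ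
  have he2' := Real.exp_pos (-σ)
  set ρ := 2 * (20 * η) * X ^ 2 with hρ
  have hρ0 : 0 ≤ ρ := by positivity
  have hX4 : X ^ 4 ≤ Real.exp (13120 * U) := by
    rw [hX, ← Real.exp_nat_mul]
    apply Real.exp_le_exp.2
    push_cast
    linarith
  have hXX : X ^ 3 ≤ X ^ 4 := pow_le_pow_right₀ hX1 (by norm_num)
  have hρX : ρ * X ≤ 40 * η * X ^ 4 := by
    calc ρ * X = 40 * η * X ^ 3 := by rw [hρ]; ring
      _ ≤ 40 * η * X ^ 4 := by gcongr
  have hρρ : ρ * ρ ≤ 1600 * η * X ^ 4 := by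
    calc ρ * ρ = 1600 * (η * η) * X ^ 4 := by rw [hρ]; ring
      _ ≤ 1600 * (η * 1) * X ^ 4 := by gcongr
      _ = _ := by ring
  have hpabs : |p| ≤ X + ρ := by
    have := abs_le.1 g00
    rw [abs_le]
    constructor <;> linarith
  have hvabs : |v| ≤ X + ρ := by
    have := abs_le.1 g11
    rw [abs_le]
    constructor <;> linarith
  have hηX : 0 ≤ η * X ^ 4 := by positivity
  constructor
  · -- the whole word
    intro i j
    rw [whole_prod θ φ η hs0, JadjJ, ← hp, ← hq, ← hu, ← hv]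
    have hG : GG θ φ η L = !![p, q; u, v] := by
      ext a b
      fin_cases a <;> fin_cases b <;> simp [hp, hq, hu, hv]
    rw [hG, Matrix.mul_fin_two]
    have hrot : rot ((2 * L + 1) * θ) = rot (θ * L) * 1 * rot (θ * (L + 1)) := by
      rw [Matrix.mul_one, ← rot_add]
      congr 1
      ring
    rw [hrot]
    have e : (rot (θ * L) * !![p * v + q * u, p * q + q * p; u * v + v * u, u * q + v * p] *
        rot (θ * (L + 1))) i j - (rot (θ * L) * 1 * rot (θ * (L + 1))) i j =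
        (rot (θ * L) * !![2 * (q * u), 2 * (p * q); 2 * (u * v), 2 * (q * u)] *
        rot (θ * (L + 1))) i j := by
      have hK : (!![p * v + q * u, p * q + q * p; u * v + v * u, u * q + v * p] : M2) - 1 =
          !![2 * (q * u), 2 * (p * q); 2 * (u * v), 2 * (q * u)] := by
        ext a b
        fin_cases a <;> fin_cases b <;> simp
        · linear_combination hdet
        · ring
        · ring
        · linear_combination hdet
      rw [← Matrix.sub_apply, ← Matrix.sub_mul, ← Matrix.mul_sub, hK]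
    rw [e]
    have hbound : ∀ a b : Fin 2, |(!![2 * (q * u), 2 * (p * q); 2 * (u * v), 2 * (q * u)] : M2) a b|
        ≤ 2 * (ρ * X + ρ * ρ) := by
      have b1 : |2 * (q * u)| ≤ 2 * (ρ * X + ρ * ρ) := by
        rw [abs_mul, abs_two, abs_mul]
        have : |q| * |u| ≤ ρ * ρ := mul_le_mul g01 g10 (abs_nonneg _) hρ0
        have h2 : 0 ≤ ρ * X := by positivity
        linarith
      have b2 : |2 * (p * q)| ≤ 2 * (ρ * X + ρ * ρ) := by
        rw [abs_mul, abs_two, abs_mul]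
        have : |p| * |q| ≤ (X + ρ) * ρ := mul_le_mul hpabs g01 (abs_nonneg _) (by positivity)
        linarith
      have b3 : |2 * (u * v)| ≤ 2 * (ρ * X + ρ * ρ) := by
        rw [abs_mul, abs_two, abs_mul]
        have : |u| * |v| ≤ ρ * (X + ρ) := mul_le_mul g10 hvabs (abs_nonneg _) hρ0
        linarith
      intro a b
      fin_cases a <;> fin_cases b
      · simpa using b1
      · simpa using b2
      · simpa using b3
      · simpa using b1
    refine (sandwich _ _ _ _ hbound i j).trans ?_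
    have h1 : 4 * (2 * (ρ * X + ρ * ρ)) ≤ 13120 * (η * X ^ 4) := by linarith
    refine h1.trans ?_
    calc 13120 * (η * X ^ 4) ≤ 13120 * (η * Real.exp (13120 * U)) := by gcongr
      _ = _ := by ring
  · -- the left half
    rw [take_prod θ φ η hs0, ns_mul_rot, ns_rot_mul, JadjJ, ← hp, ← hq, ← hu, ← hv]
    have hr : η / (4 * Real.sin θ) * ∑ m ∈ Finset.Icc 1 L, Real.cos (2 * (θ - φ) * m) / m = -σ := by
      rw [sum_Icc_one (fun m : ℕ => Real.cos (2 * (θ - φ) * m) / m), hσ, sg]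
      unfold al
      rw [← Finset.mul_sum, neg_mul, neg_neg]
      congr 1
      apply Finset.sum_congr rfl
      intro m _
      push_cast
      rfl
    rw [hr]
    have e1 : Real.exp (2 * -σ) = Real.exp (-σ) ^ 2 := by
      rw [← Real.exp_nat_mul]
      norm_num
    have e2 : Real.exp (-(2 * -σ)) = Real.exp σ ^ 2 := by
      rw [← Real.exp_nat_mul]
      congr 1
      push_cast
      ring
    rw [e1, e2]
    have e3 : ns !![v, q; u, p] = v ^ 2 + q ^ 2 + u ^ 2 + p ^ 2 := by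
      simp [ns]
    rw [e3]
    have e4 : v ^ 2 + q ^ 2 + u ^ 2 + p ^ 2 - (Real.exp (-σ) ^ 2 + Real.exp σ ^ 2) =
        (v - Real.exp (-σ)) * (v + Real.exp (-σ)) + (p - Real.exp σ) * (p + Real.exp σ) +
        (q ^ 2 + u ^ 2) := by ring
    rw [e4]
    have c1 : |(v - Real.exp (-σ)) * (v + Real.exp (-σ))| ≤ ρ * (2 * X + ρ) := by
      rw [abs_mul]
      apply mul_le_mul g11 _ (abs_nonneg _) hρ0
      have := abs_le.1 hvabs
      rw [abs_le]
      constructor <;> linarith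
    have c2 : |(p - Real.exp σ) * (p + Real.exp σ)| ≤ ρ * (2 * X + ρ) := by
      rw [abs_mul]
      apply mul_le_mul g00 _ (abs_nonneg _) hρ0
      have := abs_le.1 hpabs
      rw [abs_le]
      constructor <;> linarith
    have c3 : |q ^ 2 + u ^ 2| ≤ 2 * (ρ * ρ) := by
      have d1 : q ^ 2 ≤ ρ * ρ := by
        rw [← sq_abs, sq]
        exact mul_le_mul g01 g01 (abs_nonneg _) hρ0
      have d2 : u ^ 2 ≤ ρ * ρ := by
        rw [← sq_abs, sq]
        exact mul_le_mul g10 g10 (abs_nonneg _) hρ0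
      rw [abs_of_nonneg (by positivity)]
      linarith
    have t1 := abs_add_le ((v - Real.exp (-σ)) * (v + Real.exp (-σ)) +
      (p - Real.exp σ) * (p + Real.exp σ)) (q ^ 2 + u ^ 2)
    have t2 := abs_add_le ((v - Real.exp (-σ)) * (v + Real.exp (-σ)))
      ((p - Real.exp σ) * (p + Real.exp σ))
    have h1 : 2 * (ρ * (2 * X + ρ)) + 2 * (ρ * ρ) ≤ 13120 * (η * X ^ 4) := by linarith
    have h2 : 13120 * (η * X ^ 4) ≤ 13120 * Real.exp (13120 * U) * η := by
      calc 13120 * (η * X ^ 4) ≤ 13120 * (η * Real.exp (13120 * U)) := by gcongr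
        _ = _ := by ring
    linarith

end Pool.Agent.H234R4.SC1508
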