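import Mathlib

open MeasureTheory Set

namespace Pool.Agent.H234R4.StepE

noncomputable def bmp (t : ℝ) : ℝ := (max 0 (1 - t ^ 2)) ^ 3
noncomputable def bmp1 (t : ℝ) : ℝ := -6 * t * (max 0 (1 - t ^ 2)) ^ 2
noncomputable def bmp2 (t : ℝ) : ℝ :=
  24 * t ^ 2 * (max 0 (1 - t ^ 2)) - 6 * (max 0 (1 - t ^ 2)) ^ 2

theorem bmp_nonneg (t : ℝ) : 0 ≤ bmp t := pow_nonneg (le_max_left _ _) _

theorem bmp_zero (t : ℝ) (h : 1 < |t|) : bmp t = 0 := by
  unfold bmp
  have h1 : 1 < t ^ 2 := by
    rw [← sq_abs]
    nlinarith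
  rw [max_eq_left (by linarith)]
  norm_num

theorem bmp_pos (t : ℝ) (h : |t| < 1) : 0 < bmp t := by
  unfold bmp
  have h1 : t ^ 2 < 1 := by
    rw [← sq_abs]
    nlinarith [abs_nonneg t]
  apply pow_pos
  rw [lt_max_iff]
  right
  linarith

theorem bmp2_zero (t : ℝ) (h : 1 < |t|) : bmp2 t = 0 := by
  unfold bmp2
  have h1 : 1 < t ^ 2 := by
    rw [← sq_abs]
    nlinarith
  rw [max_eq_left (by linarith)]
  norm_num

theorem bmp2_eq (t : ℝ) (h : |t| ≤ 1) : bmp2 t = 6 * (1 - t ^ 2) * (5 * t ^ 2 - 1) := by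
  unfold bmp2
  have h1 : t ^ 2 ≤ 1 := by
    rw [← sq_abs]
    nlinarith [abs_nonneg t]
  rw [max_eq_right (by linarith)]
  ring

theorem bmp2_neg (t : ℝ) : bmp2 (-t) = bmp2 t := by
  unfold bmp2
  rw [neg_sq]

theorem bmp_cont : Continuous bmp := by
  unfold bmp
  fun_prop

theorem bmp2_cont : Continuous bmp2 := by
  unfold bmp2
  fun_prop

theorem integral_bmp2 : ∫ t, bmp2 t = 0 := by
  rw [← setIntegral_eq_integral_of_forall_compl_eq_zero (s := Ioc (-1 : ℝ) 1),
    ← intervalIntegral.integral_of_le (by norm_num)]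
  · have h1 : ∫ t in (-1 : ℝ)..1, bmp2 t = ∫ t in (-1 : ℝ)..1, 6 * (1 - t ^ 2) * (5 * t ^ 2 - 1) := by
      apply intervalIntegral.integral_congr
      intro t ht
      rw [uIcc_of_le (by norm_num)] at ht
      exact bmp2_eq t (abs_le.2 ht)
    rw [h1, intervalIntegral.integral_eq_sub_of_hasDerivAt
      (f := fun t : ℝ => -6 * t * (1 - t ^ 2) ^ 2)]
    · norm_num
    · intro t _
      have h2 : HasDerivAt (fun t : ℝ => -6 * t * (1 - t ^ 2) ^ 2)
          ((-6 * 1) * (1 - t ^ 2) ^ 2 + (-6 * t) * (((2 : ℕ) : ℝ) * (1 - t ^ 2) ^ (2 - 1) * (-(((2 : ℕ) : ℝ) * t ^ (2 - 1) * 1)))) t := by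
        apply HasDerivAt.mul
        · exact (hasDerivAt_id t).const_mul (-6)
        · apply HasDerivAt.pow
          have := ((hasDerivAt_id t).pow 2).const_sub 1
          exact this
      refine h2.congr_deriv ?_
      push_cast
      ring
    · apply Continuous.intervalIntegrable
      fun_prop
  · intro t ht
    rw [mem_Ioc, not_and_or, not_lt, not_le] at ht
    rcases ht with h | h
    · rcases eq_or_lt_of_le h with rfl | h'
      · rw [bmp2_eq _ (by norm_num)]
        norm_num
      · apply bmp2_zero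
        rw [lt_abs]
        right
        linarith
    · apply bmp2_zero
      rw [lt_abs]
      left
      exact h

/-- The closed unit cube. -/
def Q : Set (Fin 3 → ℝ) := {x | ∀ i, |x i| ≤ 1}

theorem Q_compact : IsCompact Q := by
  have : Q = Set.pi univ (fun _ : Fin 3 => Icc (-1 : ℝ) 1) := by
    ext x
    simp only [Q, mem_ofPred_eq, mem_univ_pi, mem_Icc, abs_le]
  rw [this]
  exact isCompact_univ_pi fun _ => isCompact_Icc

noncomputable def w (i : Fin 3) (x : Fin 3 → ℝ) : ℝ :=
  bmp2 (x i) * ∏ k : Fin 2, bmp (x (i.succAbove k))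

theorem w_cont (i : Fin 3) : Continuous (w i) := by
  unfold w
  apply Continuous.mul
  · exact bmp2_cont.comp (continuous_apply i)
  · apply continuous_finsetProd
    intro k _
    exact bmp_cont.comp (continuous_apply _)

theorem w_zero (i : Fin 3) (x : Fin 3 → ℝ) (hx : x ∉ Q) : w i x = 0 := by
  unfold Q at hx
  simp only [mem_ofPred_eq, not_forall, not_le] at hx
  obtain ⟨j, hj⟩ := hx
  unfold w
  rcases Fin.eq_self_or_eq_succAbove i j with rfl | ⟨k, rfl⟩
  · rw [bmp2_zero _ hj, zero_mul]
  · rw [Finset.prod_eq_zero (Finset.mem_univ k) (bmp_zero _ hj), mul_zero]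

theorem integrable_of {X : Type*} [TopologicalSpace X] [T2Space X] [MeasurableSpace X]
    [OpensMeasurableSpace X] (μ : Measure X) [IsFiniteMeasureOnCompacts μ] (K : Set X)
    (hK : IsCompact K) (g : X → ℝ) (hg : ContinuousOn g K) (h0 : ∀ x, x ∉ K → g x = 0) :
    Integrable g μ := by
  have h1 : IntegrableOn g K μ := hg.integrableOn_compact' hK hK.measurableSet
  rw [integrableOn_iff_integrable_of_support_subset] at h1
  · exact h1
  · intro x hx
    by_contra h
    exact hx (h0 x h)

theorem fwint (f : (Fin 3 → ℝ) → ℝ) (hfc : ContinuousOn f Q) (i : Fin 3) :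
    Integrable (fun x => f x * w i x) := by
  apply integrable_of volume Q Q_compact
  · exact hfc.mul (w_cont i).continuousOn
  · intro x hx
    rw [w_zero i x hx, mul_zero]

/-- The weight in product coordinates. -/
noncomputable def wt (z : ℝ × (Fin 2 → ℝ)) : ℝ := bmp2 z.1 * ∏ k : Fin 2, bmp (z.2 k)

theorem wt_neg (z : ℝ × (Fin 2 → ℝ)) : wt (-z.1, z.2) = wt z := by
  unfold wt
  rw [bmp2_neg]

theorem w_insert (i : Fin 3) (z : ℝ × (Fin 2 → ℝ)) :
    w i (i.insertNth z.1 z.2 : Fin 3 → ℝ) = wt z := by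
  unfold w wt
  simp

theorem mp (i : Fin 3) : MeasurePreserving
    (MeasurableEquiv.piFinSuccAbove (fun _ : Fin 3 => ℝ) i).symm
    ((volume : Measure ℝ).prod (volume : Measure (Fin 2 → ℝ))) volume :=
  (volume_preserving_piFinSuccAbove (fun _ : Fin 3 => ℝ) i).symm

theorem mpn : MeasurePreserving
    ((MeasurableEquiv.neg ℝ).prodCongr (MeasurableEquiv.refl (Fin 2 → ℝ)))
    ((volume : Measure ℝ).prod (volume : Measure (Fin 2 → ℝ)))
    ((volume : Measure ℝ).prod (volume : Measure (Fin 2 → ℝ))) :=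
  (Measure.measurePreserving_neg (volume : Measure ℝ)).prod (MeasurePreserving.id _)

theorem int4 {X : Type*} [MeasurableSpace X] (μ : Measure X) (A B C E : X → ℝ)
    (hA : Integrable A μ) (hB : Integrable B μ) (hC : Integrable C μ) (hE : Integrable E μ) :
    ∫ z, (A z + B z - C z - E z) ∂μ =
      ∫ z, A z ∂μ + ∫ z, B z ∂μ - ∫ z, C z ∂μ - ∫ z, E z ∂μ := by
  rw [integral_sub (f := fun z => A z + B z - C z) ((hA.add hB).sub hC) hE,
    integral_sub (f := fun z => A z + B z) (hA.add hB) hC, integral_add hA hB]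

theorem insertNth_cont (i : Fin 3) :
    Continuous (fun z : ℝ × (Fin 2 → ℝ) => (i.insertNth z.1 z.2 : Fin 3 → ℝ)) := by
  apply continuous_pi
  intro j
  rcases Fin.eq_self_or_eq_succAbove i j with rfl | ⟨k, rfl⟩
  · simpa using continuous_fst
  · simp only [Fin.insertNth_apply_succAbove]
    exact (continuous_apply k).comp continuous_snd

theorem wt_cont : Continuous wt := by
  unfold wt
  apply Continuous.mul
  · exact bmp2_cont.comp continuous_fst
  · apply continuous_finsetProd
    intro k _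
    exact bmp_cont.comp ((continuous_apply k).comp continuous_snd)

theorem step1 (f : (Fin 3 → ℝ) → ℝ) (hf : ConvexOn ℝ Q f) (hfc : ContinuousOn f Q)
    (h0 : ∫ x : Fin 3 → ℝ, f x * (bmp2 (x 0) * bmp (x 1) * bmp (x 2)
        + bmp (x 0) * bmp2 (x 1) * bmp (x 2) + bmp (x 0) * bmp (x 1) * bmp2 (x 2)) = 0) :
    ∀ i : Fin 3, ∀ t : ℝ, |t| < 1 →
      f (Pi.single i t) + f (Pi.single i (-t)) = 2 * f 0 := by
  have hsum : ∑ i : Fin 3, ∫ x : Fin 3 → ℝ, f x * w i x = 0 := by
    rw [← integral_finsetSum _ (fun i _ => fwint f hfc i), ← h0]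
    apply integral_congr_ae
    refine Filter.Eventually.of_forall fun x => ?_
    simp only []
    rw [← Finset.mul_sum, Fin.sum_univ_three]
    congr 1
    unfold w
    simp only [Fin.prod_univ_two]
    have e1 : (0 : Fin 3).succAbove 0 = 1 := by decide
    have e2 : (0 : Fin 3).succAbove 1 = 2 := by decide
    have e3 : (1 : Fin 3).succAbove 0 = 0 := by decide
    have e4 : (1 : Fin 3).succAbove 1 = 2 := by decide
    have e5 : (2 : Fin 3).succAbove 0 = 0 := by decide
    have e6 : (2 : Fin 3).succAbove 1 = 1 := by decide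
    rw [e1, e2, e3, e4, e5, e6]
    ring
  set t0 : ℝ := Real.sqrt (1 / 5) with ht0
  have ht0sq : t0 ^ 2 = 1 / 5 := Real.sq_sqrt (by norm_num)
  have ht0nn : 0 ≤ t0 := Real.sqrt_nonneg _
  have ht01 : t0 < 1 := by nlinarith
  let D : Fin 3 → ℝ × (Fin 2 → ℝ) → ℝ := fun i z =>
    (f (i.insertNth z.1 z.2 : Fin 3 → ℝ) + f (i.insertNth (-z.1) z.2 : Fin 3 → ℝ)
      - f (i.insertNth t0 z.2 : Fin 3 → ℝ) - f (i.insertNth (-t0) z.2 : Fin 3 → ℝ)) * wt z
  have hmem : ∀ (i : Fin 3) (t : ℝ) (y : Fin 2 → ℝ), |t| ≤ 1 → (∀ k, |y k| ≤ 1) →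
      (i.insertNth t y : Fin 3 → ℝ) ∈ Q := by
    intro i t y ht hy j
    rcases Fin.eq_self_or_eq_succAbove i j with rfl | ⟨k, rfl⟩
    · simpa using ht
    · simpa using hy k
  -- convexity comparison
  have hmono : ∀ (i : Fin 3) (s t : ℝ) (y : Fin 2 → ℝ), |s| ≤ |t| → |t| ≤ 1 → (∀ k, |y k| ≤ 1) →
      f (i.insertNth s y : Fin 3 → ℝ) + f (i.insertNth (-s) y : Fin 3 → ℝ) ≤
      f (i.insertNth t y : Fin 3 → ℝ) + f (i.insertNth (-t) y : Fin 3 → ℝ) := by
    intro i s t y hst ht hy
    by_cases h0 : t = 0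
    · subst h0
      rw [abs_zero] at hst
      have : s = 0 := abs_eq_zero.1 (le_antisymm hst (abs_nonneg s))
      rw [this]
    · have hpos : 0 < |t| := abs_pos.2 h0
      have hlam : ∃ l : ℝ, 0 ≤ l ∧ l ≤ 1 ∧ (2 * l - 1) * t = s := by
        refine ⟨(s / t + 1) / 2, ?_, ?_, ?_⟩
        · have h1 : |s / t| ≤ 1 := by
            rw [abs_div, div_le_one hpos]
            exact hst
          have := (abs_le.1 h1).1
          linarith
        · have h1 : |s / t| ≤ 1 := by
            rw [abs_div, div_le_one hpos]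
            exact hst
          have := (abs_le.1 h1).2
          linarith
        · field_simp
          ring
      obtain ⟨l, hl0, hl1, hl⟩ := hlam
      have htn : |(-t)| ≤ 1 := by rwa [abs_neg]
      have h1 := hf.2 (hmem i t y ht hy) (hmem i (-t) y htn hy) hl0 (sub_nonneg.2 hl1)
        (by ring)
      have h2 := hf.2 (hmem i t y ht hy) (hmem i (-t) y htn hy) (sub_nonneg.2 hl1) hl0
        (by ring)
      have e1 : l • (i.insertNth t y : Fin 3 → ℝ) + (1 - l) • (i.insertNth (-t) y : Fin 3 → ℝ) =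
          (i.insertNth s y : Fin 3 → ℝ) := by
        ext j
        rcases Fin.eq_self_or_eq_succAbove i j with rfl | ⟨k, rfl⟩
        · simp only [Pi.add_apply, Pi.smul_apply, Fin.insertNth_apply_same, smul_eq_mul]
          rw [← hl]
          ring
        · simp only [Pi.add_apply, Pi.smul_apply, Fin.insertNth_apply_succAbove, smul_eq_mul]
          ring
      have e2 : (1 - l) • (i.insertNth t y : Fin 3 → ℝ) + l • (i.insertNth (-t) y : Fin 3 → ℝ) =
          (i.insertNth (-s) y : Fin 3 → ℝ) := by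
        ext j
        rcases Fin.eq_self_or_eq_succAbove i j with rfl | ⟨k, rfl⟩
        · simp only [Pi.add_apply, Pi.smul_apply, Fin.insertNth_apply_same, smul_eq_mul]
          rw [← hl]
          ring
        · simp only [Pi.add_apply, Pi.smul_apply, Fin.insertNth_apply_succAbove, smul_eq_mul]
          ring
      rw [e1] at h1
      rw [e2] at h2
      simp only [smul_eq_mul] at h1 h2
      linarith
  have hDnn : ∀ i z, 0 ≤ D i z := by
    intro i z
    by_cases hz : |z.1| ≤ 1 ∧ ∀ k, |z.2 k| ≤ 1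
    · obtain ⟨hz1, hz2⟩ := hz
      have hβ : 0 ≤ ∏ k : Fin 2, bmp (z.2 k) := Finset.prod_nonneg fun k _ => bmp_nonneg _
      have h1 : 0 ≤ 1 - z.1 ^ 2 := by
        have : z.1 ^ 2 ≤ 1 := by
          rw [← sq_abs]
          nlinarith [abs_nonneg z.1]
        linarith
      simp only [D, wt]
      rw [bmp2_eq z.1 hz1]
      rcases le_total t0 |z.1| with h | h
      · have h2 := hmono i t0 z.1 z.2 (by rwa [abs_of_nonneg ht0nn]) hz1 hz2
        have h3 : t0 ^ 2 ≤ z.1 ^ 2 := by
          rw [← sq_abs z.1]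
          exact pow_le_pow_left₀ ht0nn h 2
        apply mul_nonneg
        · linarith
        · apply mul_nonneg _ hβ
          apply mul_nonneg
          · linarith
          · linarith
      · have h2 := hmono i z.1 t0 z.2 (by rwa [abs_of_nonneg ht0nn])
          (by rw [abs_of_nonneg ht0nn]; exact ht01.le) hz2
        have h3 : z.1 ^ 2 ≤ t0 ^ 2 := by
          rw [← sq_abs z.1]
          exact pow_le_pow_left₀ (abs_nonneg _) h 2
        apply mul_nonneg_of_nonpos_of_nonpos
        · linarith
        · apply mul_nonpos_of_nonpos_of_nonneg _ hβ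
          apply mul_nonpos_of_nonneg_of_nonpos
          · linarith
          · linarith
    · have : wt z = 0 := by
        unfold wt
        rw [not_and_or] at hz
        rcases hz with h | h
        · rw [bmp2_zero _ (not_le.1 h), zero_mul]
        · push Not at h
          obtain ⟨k, hk⟩ := h
          rw [Finset.prod_eq_zero (Finset.mem_univ k) (bmp_zero _ hk), mul_zero]
      simp only [D]
      rw [this, mul_zero]
  have hint1 : ∀ i : Fin 3, Integrable (fun z : ℝ × (Fin 2 → ℝ) =>
      f (i.insertNth z.1 z.2 : Fin 3 → ℝ) * wt z)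
      ((volume : Measure ℝ).prod (volume : Measure (Fin 2 → ℝ))) := by
    intro i
    have h := (mp i).integrable_comp_of_integrable (fwint f hfc i)
    refine h.congr (Filter.Eventually.of_forall fun z => ?_)
    show f (i.insertNth z.1 z.2 : Fin 3 → ℝ) * w i (i.insertNth z.1 z.2 : Fin 3 → ℝ) = _
    rw [w_insert]
  have hval1 : ∀ i : Fin 3, ∫ z : ℝ × (Fin 2 → ℝ), f (i.insertNth z.1 z.2 : Fin 3 → ℝ) * wt z
      ∂((volume : Measure ℝ).prod (volume : Measure (Fin 2 → ℝ))) = ∫ x, f x * w i x := by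
    intro i
    rw [← (mp i).integral_comp']
    apply integral_congr_ae
    refine Filter.Eventually.of_forall fun z => ?_
    show _ = f (i.insertNth z.1 z.2 : Fin 3 → ℝ) * w i (i.insertNth z.1 z.2 : Fin 3 → ℝ)
    rw [w_insert]
  have hint2 : ∀ i : Fin 3, Integrable (fun z : ℝ × (Fin 2 → ℝ) =>
      f (i.insertNth (-z.1) z.2 : Fin 3 → ℝ) * wt z)
      ((volume : Measure ℝ).prod (volume : Measure (Fin 2 → ℝ))) := by
    intro i
    have h := mpn.integrable_comp_of_integrable (hint1 i)
    refine h.congr (Filter.Eventually.of_forall fun z => ?_)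
    show f (i.insertNth (-z.1) z.2 : Fin 3 → ℝ) * wt (-z.1, z.2) = _
    rw [wt_neg]
  have hval2 : ∀ i : Fin 3, ∫ z : ℝ × (Fin 2 → ℝ), f (i.insertNth (-z.1) z.2 : Fin 3 → ℝ) * wt z
      ∂((volume : Measure ℝ).prod (volume : Measure (Fin 2 → ℝ))) = ∫ x, f x * w i x := by
    intro i
    have h := mpn.integral_comp' (fun z : ℝ × (Fin 2 → ℝ) =>
      f (i.insertNth z.1 z.2 : Fin 3 → ℝ) * wt z)
    rw [← hval1, ← h]
    apply integral_congr_ae
    refine Filter.Eventually.of_forall fun z => ?_
    show _ = f (i.insertNth (-z.1) z.2 : Fin 3 → ℝ) * wt (-z.1, z.2)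
    rw [wt_neg]
  have hb2int : Integrable bmp2 (volume : Measure ℝ) := by
    apply integrable_of volume (Icc (-1 : ℝ) 1) isCompact_Icc _ bmp2_cont.continuousOn
    intro t ht
    apply bmp2_zero
    by_contra h
    exact ht (abs_le.1 (not_lt.1 h))
  have hint3 : ∀ (i : Fin 3) (c : ℝ), |c| ≤ 1 → Integrable (fun z : ℝ × (Fin 2 → ℝ) =>
      f (i.insertNth c z.2 : Fin 3 → ℝ) * wt z)
      ((volume : Measure ℝ).prod (volume : Measure (Fin 2 → ℝ))) := by
    intro i c hc
    have h1 : Integrable (fun y : Fin 2 → ℝ => f (i.insertNth c y : Fin 3 → ℝ) *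
        ∏ k : Fin 2, bmp (y k)) := by
      apply integrable_of volume (Set.pi univ (fun _ : Fin 2 => Icc (-1 : ℝ) 1))
        (isCompact_univ_pi fun _ => isCompact_Icc)
      · apply ContinuousOn.mul
        · apply hfc.comp
          · exact ((insertNth_cont i).comp (Continuous.prodMk_right c)).continuousOn
          · intro y hy
            exact hmem i c y hc (fun k => abs_le.2 (hy k (mem_univ k)))
        · apply Continuous.continuousOn
          apply continuous_finsetProd
          intro k _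
          exact bmp_cont.comp (continuous_apply k)
      · intro y hy
        rw [mem_univ_pi] at hy
        push Not at hy
        obtain ⟨k, hk⟩ := hy
        have hk' : 1 < |y k| := by
          by_contra h
          exact hk (abs_le.1 (not_lt.1 h))
        rw [Finset.prod_eq_zero (Finset.mem_univ k) (bmp_zero _ hk'), mul_zero]
    refine (hb2int.mul_prod h1).congr (Filter.Eventually.of_forall fun z => ?_)
    simp only [wt]
    ring
  have hval3 : ∀ (i : Fin 3) (c : ℝ), ∫ z : ℝ × (Fin 2 → ℝ),
      f (i.insertNth c z.2 : Fin 3 → ℝ) * wt z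
      ∂((volume : Measure ℝ).prod (volume : Measure (Fin 2 → ℝ))) = 0 := by
    intro i c
    have h1 := integral_prod_mul (μ := (volume : Measure ℝ)) (ν := (volume : Measure (Fin 2 → ℝ)))
      bmp2 (fun y : Fin 2 → ℝ => f (i.insertNth c y : Fin 3 → ℝ) * ∏ k : Fin 2, bmp (y k))
    rw [integral_bmp2, zero_mul] at h1
    rw [← h1]
    apply integral_congr_ae
    refine Filter.Eventually.of_forall fun z => ?_
    simp only [wt]
    ring
  have hDeq : ∀ i, D i = fun z => ((f (i.insertNth z.1 z.2 : Fin 3 → ℝ) * wt z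
      + f (i.insertNth (-z.1) z.2 : Fin 3 → ℝ) * wt z)
      - f (i.insertNth t0 z.2 : Fin 3 → ℝ) * wt z)
      - f (i.insertNth (-t0) z.2 : Fin 3 → ℝ) * wt z := by
    intro i
    funext z
    simp only [D]
    ring
  have ht0a : |t0| ≤ 1 := by rw [abs_of_nonneg ht0nn]; exact ht01.le
  have ht0b : |(-t0)| ≤ 1 := by rw [abs_neg]; exact ht0a
  have hDint : ∀ i, Integrable (D i)
      ((volume : Measure ℝ).prod (volume : Measure (Fin 2 → ℝ))) := by
    intro i
    rw [hDeq]
    exact (((hint1 i).add (hint2 i)).sub (hint3 i t0 ht0a)).sub (hint3 i (-t0) ht0b)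
  have hDval : ∀ i, ∫ z, D i z ∂((volume : Measure ℝ).prod (volume : Measure (Fin 2 → ℝ))) =
      2 * ∫ x, f x * w i x := by
    intro i
    rw [hDeq]
    have h := int4 ((volume : Measure ℝ).prod (volume : Measure (Fin 2 → ℝ))) _ _ _ _
      (hint1 i) (hint2 i) (hint3 i t0 ht0a) (hint3 i (-t0) ht0b)
    rw [hval1, hval2, hval3, hval3] at h
    rw [h]
    ring
  have hDz : ∀ i, ∫ z, D i z ∂((volume : Measure ℝ).prod (volume : Measure (Fin 2 → ℝ))) = 0 := by
    have hnn : ∀ i, 0 ≤ ∫ z, D i z ∂((volume : Measure ℝ).prod (volume : Measure (Fin 2 → ℝ))) :=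
      fun i => integral_nonneg (hDnn i)
    have hs : ∑ i, ∫ z, D i z ∂((volume : Measure ℝ).prod (volume : Measure (Fin 2 → ℝ))) = 0 := by
      simp_rw [hDval]
      rw [← Finset.mul_sum, hsum, mul_zero]
    intro i
    exact (Finset.sum_eq_zero_iff_of_nonneg (fun i _ => hnn i)).1 hs i (Finset.mem_univ i)
  have hDae : ∀ i, D i =ᵐ[(volume : Measure ℝ).prod (volume : Measure (Fin 2 → ℝ))] 0 :=
    fun i => (integral_eq_zero_iff_of_nonneg (hDnn i) (hDint i)).1 (hDz i)
  -- the open box
  let O : Set (ℝ × (Fin 2 → ℝ)) := {z | |z.1| < 1 ∧ ∀ k, |z.2 k| < 1}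
  have hO : IsOpen O := by
    have : O = {z : ℝ × (Fin 2 → ℝ) | |z.1| < 1} ∩ ⋂ k, {z : ℝ × (Fin 2 → ℝ) | |z.2 k| < 1} := by
      ext z
      simp [O]
    rw [this]
    apply IsOpen.inter
    · exact isOpen_lt (by fun_prop) continuous_const
    · apply isOpen_iInter_of_finite
      intro k
      exact isOpen_lt (by fun_prop) continuous_const
  have hDc : ∀ i, ContinuousOn (D i) O := by
    intro i
    have hc : ∀ g : ℝ × (Fin 2 → ℝ) → ℝ, Continuous g → (∀ z ∈ O, |g z| ≤ 1) →
        ContinuousOn (fun z : ℝ × (Fin 2 → ℝ) => f (i.insertNth (g z) z.2 : Fin 3 → ℝ)) O := by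
      intro g hg hgO
      apply hfc.comp (g := f)
      · exact ((insertNth_cont i).comp (hg.prodMk continuous_snd)).continuousOn
      · intro z hz
        exact hmem i _ _ (hgO z hz) (fun k => (hz.2 k).le)
    apply ContinuousOn.mul _ wt_cont.continuousOn
    apply ContinuousOn.sub
    · apply ContinuousOn.sub
      · apply ContinuousOn.add
        · exact hc (fun z => z.1) continuous_fst (fun z hz => hz.1.le)
        · exact hc (fun z => -z.1) continuous_fst.neg (fun z hz => by rw [abs_neg]; exact hz.1.le)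
      · exact hc (fun _ => t0) continuous_const (fun z _ => ht0a)
    · exact hc (fun _ => -t0) continuous_const (fun z _ => ht0b)
  have hDO : ∀ i, ∀ z ∈ O, D i z = 0 := by
    intro i
    have h1 : D i =ᵐ[((volume : Measure ℝ).prod (volume : Measure (Fin 2 → ℝ))).restrict O] 0 :=
      ae_restrict_of_ae (hDae i)
    exact Measure.eqOn_open_of_ae_eq h1 hO (hDc i) continuousOn_const
  have hkey : ∀ (i : Fin 3) (t : ℝ), |t| < 1 → t ^ 2 ≠ 1 / 5 →
      f (Pi.single i t) + f (Pi.single i (-t)) = f (Pi.single i t0) + f (Pi.single i (-t0)) := by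
    intro i t ht hne
    have h1 := hDO i (t, 0) ⟨ht, fun k => by simp⟩
    have hins : ∀ s : ℝ, (i.insertNth s (0 : Fin 2 → ℝ) : Fin 3 → ℝ) = Pi.single i s := by
      intro s
      ext j
      rcases Fin.eq_self_or_eq_succAbove i j with rfl | ⟨k, rfl⟩
      · simp
      · simp
    simp only [D, wt] at h1
    rw [hins, hins, hins, hins] at h1
    have hwt : bmp2 t * ∏ k : Fin 2, bmp ((0 : Fin 2 → ℝ) k) ≠ 0 := by
      apply mul_ne_zero
      · rw [bmp2_eq t ht.le]
        have h2 : t ^ 2 < 1 := by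
          rw [← sq_abs]
          nlinarith [abs_nonneg t]
        have h3 : 5 * t ^ 2 - 1 ≠ 0 := by
          intro h
          apply hne
          linarith
        have h4 : (1 - t ^ 2) ≠ 0 := by linarith
        positivity
      · apply Finset.prod_ne_zero_iff.2
        intro k _
        exact (bmp_pos _ (by simp)).ne'
    have h5 := (mul_eq_zero.1 h1).resolve_right hwt
    linarith
  intro i t ht
  have h00 := hkey i 0 (by simp) (by norm_num)
  rw [neg_zero, Pi.single_zero] at h00
  by_cases h : t ^ 2 = 1 / 5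
  · have h6 : t ^ 2 = t0 ^ 2 := by rw [h, ht0sq]
    rcases sq_eq_sq_iff_eq_or_eq_neg.1 h6 with h7 | h7
    · rw [h7]; linarith
    · rw [h7, neg_neg]; linarith
  · rw [hkey i t ht h]; linarith

theorem Q_convex : Convex ℝ Q := by
  intro x hx y hy a b ha hb hab i
  have h1 := hx i
  have h2 := hy i
  rw [abs_le] at h1 h2 ⊢
  simp only [Pi.add_apply, Pi.smul_apply, smul_eq_mul]
  constructor
  · nlinarith
  · nlinarith

theorem affine_of_weak_harmonic {C : Set (Fin 3 → ℝ)} (hC : IsOpen C) (hne : C.Nonempty)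
    (L : (Fin 3 → ℝ) → ℝ) (hL : ConvexOn ℝ C L)
    (hw : ∀ (p : Fin 3 → ℝ) (ρ : ℝ), 0 < ρ →
      (∀ x : Fin 3 → ℝ, (∀ i, |x i| ≤ 1) → p + ρ • x ∈ C) →
      ∫ x : Fin 3 → ℝ, L (p + ρ • x) * (bmp2 (x 0) * bmp (x 1) * bmp (x 2)
        + bmp (x 0) * bmp2 (x 1) * bmp (x 2) + bmp (x 0) * bmp (x 1) * bmp2 (x 2)) = 0) :
    ∃ (a : Fin 3 → ℝ) (c : ℝ), ∀ x ∈ C, L x = ∑ i, a i * x i + c := by
  have hLc : ContinuousOn L C := hL.continuousOn hC
  -- room
  have hroom : ∀ p ∈ C, ∃ r : ℝ, 0 < r ∧ ∀ x : Fin 3 → ℝ, (∀ i, |x i| ≤ r) → p + x ∈ C := by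
    intro p hp
    obtain ⟨ε, hε, hb⟩ := Metric.isOpen_iff.1 hC p hp
    refine ⟨ε / 2, half_pos hε, ?_⟩
    intro x hx
    apply hb
    rw [Metric.mem_ball, dist_eq_norm, add_sub_cancel_left]
    have : ‖x‖ ≤ ε / 2 := by
      rw [pi_norm_le_iff_of_nonneg (half_pos hε).le]
      exact hx
    linarith
  -- midpoint identity in coordinate directions
  have hmid1 : ∀ p (r : ℝ), 0 < r → (∀ x : Fin 3 → ℝ, (∀ i, |x i| ≤ r) → p + x ∈ C) →
      ∀ (i : Fin 3) (u : ℝ), |u| < r →
        L (p + Pi.single i u) + L (p + Pi.single i (-u)) = 2 * L p := by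
    intro p r hr hroomp i u hu
    have hin : ∀ x : Fin 3 → ℝ, (∀ i, |x i| ≤ 1) → p + r • x ∈ C := by
      intro x hx
      apply hroomp
      intro i
      rw [Pi.smul_apply, smul_eq_mul, abs_mul, abs_of_pos hr]
      nlinarith [hx i]
    have h1 := step1 (fun x => L (p + r • x))
      ⟨Q_convex, by
        intro x hx y hy a b ha hb hab
        have h2 := hL.2 (hin x hx) (hin y hy) ha hb hab
        have e : a • (p + r • x) + b • (p + r • y) = p + r • (a • x + b • y) := by
          ext j
          simp only [Pi.add_apply, Pi.smul_apply, smul_eq_mul]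
          have : b = 1 - a := by linarith
          rw [this]
          ring
        rw [e] at h2
        exact h2⟩
      (by
        apply hLc.comp
        · apply Continuous.continuousOn
          fun_prop
        · intro x hx
          exact hin x hx)
      (hw p r hr hin) i (u / r)
      (by
        rw [abs_div, abs_of_pos hr, div_lt_one hr]
        exact hu)
    have e1 : r • (Pi.single i (u / r) : Fin 3 → ℝ) = Pi.single i u := by
      rw [← Pi.single_smul, smul_eq_mul, mul_div_cancel₀ _ hr.ne']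
    have e2 : r • (Pi.single i (-(u / r)) : Fin 3 → ℝ) = Pi.single i (-u) := by
      rw [← Pi.single_smul, smul_eq_mul]
      congr 1
      field_simp
    simp only [e1, e2, smul_zero, add_zero] at h1
    exact h1
  -- Jensen
  have hjen : ∀ p (r : ℝ), 0 < r → (∀ x : Fin 3 → ℝ, (∀ i, |x i| ≤ r) → p + x ∈ C) →
      ∀ s : Fin 3 → ℝ, (∀ i, |s i| ≤ r / 3) →
        L (p + s) ≤ (1 / 3) * ∑ i, L (p + Pi.single i (3 * s i)) := by
    intro p r hr hroomp s hs
    have h1 := hL.map_sum_le (t := Finset.univ) (w := fun _ : Fin 3 => (1 / 3 : ℝ))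
      (p := fun i => p + Pi.single i (3 * s i)) (fun i _ => by norm_num)
      (by simp) (fun i _ => by
        apply hroomp
        intro j
        by_cases hj : j = i
        · subst hj
          rw [Pi.single_eq_same, abs_mul]
          have := hs j
          norm_num
          linarith
        · rw [Pi.single_eq_of_ne hj, abs_zero]
          exact hr.le)
    have e : ∑ i : Fin 3, (1 / 3 : ℝ) • (p + Pi.single i (3 * s i)) = p + s := by
      ext j
      rw [Finset.sum_apply]
      simp only [Pi.smul_apply, Pi.add_apply, smul_eq_mul]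
      rw [← Finset.mul_sum, Finset.sum_add_distrib, Finset.sum_const, Finset.card_univ,
        Fintype.card_fin]
      have : ∑ i : Fin 3, (Pi.single i (3 * s i) : Fin 3 → ℝ) j = 3 * s j := by
        rw [Finset.sum_eq_single j]
        · rw [Pi.single_eq_same]
        · intro b _ hb
          rw [Pi.single_eq_of_ne hb.symm]
        · intro h
          exact absurd (Finset.mem_univ j) h
      rw [this]
      simp
      ring
    rw [e] at h1
    simp only [smul_eq_mul] at h1
    rw [← Finset.mul_sum] at h1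
    exact h1
  -- midpoint identity
  have hmid : ∀ p (r : ℝ), 0 < r → (∀ x : Fin 3 → ℝ, (∀ i, |x i| ≤ r) → p + x ∈ C) →
      ∀ s : Fin 3 → ℝ, (∀ i, |s i| < r / 3) → L (p + s) + L (p - s) = 2 * L p := by
    intro p r hr hroomp s hs
    have h1 := hjen p r hr hroomp s (fun i => (hs i).le)
    have h2 := hjen p r hr hroomp (-s) (fun i => by
      rw [Pi.neg_apply, abs_neg]
      exact (hs i).le)
    have h3 : ∑ i, L (p + Pi.single i (3 * s i)) + ∑ i, L (p + Pi.single i (3 * (-s) i)) =
        6 * L p := by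
      rw [← Finset.sum_add_distrib]
      have : ∀ i ∈ (Finset.univ : Finset (Fin 3)),
          L (p + Pi.single i (3 * s i)) + L (p + Pi.single i (3 * (-s) i)) = 2 * L p := by
        intro i _
        have h4 := hmid1 p r hr hroomp i (3 * s i) (by
          rw [abs_mul]
          have := hs i
          norm_num
          linarith)
        rw [Pi.neg_apply, mul_neg]
        exact h4
      rw [Finset.sum_congr rfl this, Finset.sum_const, Finset.card_univ, Fintype.card_fin]
      simp
      ring
    have h5 : 2 * L p ≤ L (p + s) + L (p - s) := by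
      have h6 := hL.2 (hroomp s (fun i => by linarith [hs i]))
        (hroomp (-s) (fun i => by
          rw [Pi.neg_apply, abs_neg]
          linarith [hs i])) (show (0 : ℝ) ≤ 1 / 2 by norm_num)
        (show (0 : ℝ) ≤ 1 / 2 by norm_num) (by norm_num)
      have e : (1 / 2 : ℝ) • (p + s) + (1 / 2 : ℝ) • (p + -s) = p := by
        ext j
        simp only [Pi.add_apply, Pi.smul_apply, Pi.neg_apply, smul_eq_mul]
        ring
      rw [e] at h6
      simp only [smul_eq_mul] at h6
      rw [sub_eq_add_neg]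
      linarith
    rw [← sub_eq_add_neg] at h2
    linarith
  -- affine on segments
  have hseg : ∀ x ∈ C, ∀ y ∈ C, ∀ t ∈ Icc (0 : ℝ) 1,
      L (x + t • (y - x)) = (1 - t) * L x + t * L y := by
    intro x hx y hy
    have hin : ∀ t ∈ Icc (0 : ℝ) 1, x + t • (y - x) ∈ C := by
      intro t ht
      have := hL.1 hx hy (sub_nonneg.2 ht.2) ht.1 (by ring)
      have e : (1 - t) • x + t • y = x + t • (y - x) := by
        ext j
        simp only [Pi.add_apply, Pi.smul_apply, Pi.sub_apply, smul_eq_mul]
        ring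
      rwa [e] at this
    let ψ : ℝ → ℝ := fun t => L (x + t • (y - x)) - ((1 - t) * L x + t * L y)
    have hψc : ContinuousOn ψ (Icc (0 : ℝ) 1) := by
      apply ContinuousOn.sub
      · apply hLc.comp
        · apply Continuous.continuousOn
          fun_prop
        · intro t ht
          exact hin t ht
      · apply Continuous.continuousOn
        fun_prop
    have hψle : ∀ t ∈ Icc (0 : ℝ) 1, ψ t ≤ 0 := by
      intro t ht
      have h1 := hL.2 hx hy (sub_nonneg.2 ht.2) ht.1 (by ring)
      have e : (1 - t) • x + t • y = x + t • (y - x) := by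
        ext j
        simp only [Pi.add_apply, Pi.smul_apply, Pi.sub_apply, smul_eq_mul]
        ring
      rw [e] at h1
      simp only [smul_eq_mul] at h1
      simp only [ψ]
      linarith
    obtain ⟨tm, htm, hmin⟩ := isCompact_Icc.exists_isMinOn
      (nonempty_Icc.2 (zero_le_one' ℝ)) hψc
    have hmin' : ∀ t ∈ Icc (0 : ℝ) 1, ψ tm ≤ ψ t := fun t ht => hmin ht
    have hm0 : 0 ≤ ψ tm := by
      by_contra hneg
      push Not at hneg
      -- least minimiser
      have hScl : IsCompact (Icc (0 : ℝ) 1 ∩ ψ ⁻¹' {ψ tm}) := by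
        apply isCompact_Icc.of_isClosed_subset _ inter_subset_left
        exact hψc.preimage_isClosed_of_isClosed isClosed_Icc isClosed_singleton
      obtain ⟨ts, ⟨hts, htsv⟩, hleast⟩ := hScl.exists_isLeast ⟨tm, htm, rfl⟩
      have htsv' : ψ ts = ψ tm := htsv
      have hts0 : 0 < ts := by
        rcases eq_or_lt_of_le hts.1 with h | h
        · exfalso
          rw [← h] at htsv'
          have : ψ 0 = 0 := by simp [ψ]
          linarith
        · exact h
      have hts1 : ts < 1 := by
        rcases eq_or_lt_of_le hts.2 with h | h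
        · exfalso
          rw [h] at htsv'
          have : ψ 1 = 0 := by simp [ψ]
          linarith
        · exact h
      obtain ⟨r, hr, hroomp⟩ := hroom _ (hin ts hts)
      -- choose h
      obtain ⟨h, hh0, hh1, hh2, hh3⟩ : ∃ h : ℝ, 0 < h ∧ h ≤ ts ∧ h ≤ 1 - ts ∧
          ∀ i, |(h • (y - x)) i| < r / 3 := by
        have hden : 0 < ‖y - x‖ + 1 := by positivity
        refine ⟨min (min ts (1 - ts)) (r / 3 / (‖y - x‖ + 1) / 2), ?_, ?_, ?_, ?_⟩
        · apply lt_min (lt_min hts0 (by linarith))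
          positivity
        · exact (min_le_left _ _).trans (min_le_left _ _)
        · exact (min_le_left _ _).trans (min_le_right _ _)
        · intro i
          rw [Pi.smul_apply, smul_eq_mul, abs_mul]
          have h1 : 0 < min (min ts (1 - ts)) (r / 3 / (‖y - x‖ + 1) / 2) := by
            apply lt_min (lt_min hts0 (by linarith))
            positivity
          rw [abs_of_pos h1]
          have h2 : |(y - x) i| ≤ ‖y - x‖ := norm_le_pi_norm (y - x) i
          have h3 : min (min ts (1 - ts)) (r / 3 / (‖y - x‖ + 1) / 2) ≤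
            r / 3 / (‖y - x‖ + 1) / 2 := min_le_right _ _
          calc min (min ts (1 - ts)) (r / 3 / (‖y - x‖ + 1) / 2) * |(y - x) i|
              ≤ (r / 3 / (‖y - x‖ + 1) / 2) * (‖y - x‖ + 1) := by
                apply mul_le_mul h3 (by linarith) (abs_nonneg _) (by positivity)
            _ = r / 3 / 2 := by field_simp
            _ < r / 3 := by linarith
      have hm := hmid _ r hr hroomp (h • (y - x)) hh3
      have e1 : x + ts • (y - x) + h • (y - x) = x + (ts + h) • (y - x) := by
        rw [add_smul, add_assoc]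
      have e2 : x + ts • (y - x) - h • (y - x) = x + (ts - h) • (y - x) := by
        rw [sub_smul]
        abel
      rw [e1, e2] at hm
      have hp1 : ts + h ∈ Icc (0 : ℝ) 1 := ⟨by linarith, by linarith⟩
      have hp2 : ts - h ∈ Icc (0 : ℝ) 1 := ⟨by linarith, by linarith⟩
      have h1 := hmin' _ hp1
      have h2 := hmin' _ hp2
      have h3 : ψ (ts + h) + ψ (ts - h) = 2 * ψ ts := by
        simp only [ψ]
        linarith
      have h4 : ψ (ts - h) = ψ tm := by linarith
      have h5 := hleast ⟨hp2, h4⟩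
      linarith
    intro t ht
    have h1 := hψle t ht
    have h2 := hmin' t ht
    have h3 : ψ t = 0 := le_antisymm h1 (hm0.trans h2)
    simp only [ψ] at h3
    linarith
  -- final
  obtain ⟨p, hp⟩ := hne
  obtain ⟨r, hr, hroomp⟩ := hroom p hp
  let a : Fin 3 → ℝ := fun i => (L (p + Pi.single i r) - L p) / r
  have hsingle_in : ∀ (i : Fin 3) (u : ℝ), |u| ≤ r → p + Pi.single i u ∈ C := by
    intro i u hu
    apply hroomp
    intro j
    by_cases hj : j = i
    · subst hj
      rw [Pi.single_eq_same]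
      exact hu
    · rw [Pi.single_eq_of_ne hj, abs_zero]
      exact hr.le
  have ha0 : ∀ (i : Fin 3) (u : ℝ), 0 ≤ u → u ≤ r → L (p + Pi.single i u) = L p + a i * u := by
    intro i u hu0 hur
    have h1 := hseg p hp (p + Pi.single i r) (hsingle_in i r (abs_of_pos hr).le) (u / r)
      ⟨by positivity, (div_le_one hr).2 hur⟩
    rw [add_sub_cancel_left, ← Pi.single_smul, smul_eq_mul, div_mul_cancel₀ _ hr.ne'] at h1
    rw [h1]
    simp only [a]
    field_simp
    ring
  have ha1 : ∀ (i : Fin 3) (u : ℝ), |u| ≤ r → L (p + Pi.single i u) = L p + a i * u := by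
    intro i u hu
    rcases le_total 0 u with h | h
    · exact ha0 i u h (by rwa [abs_of_nonneg h] at hu)
    · have h1 := ha0 i (-u) (by linarith) (by rwa [abs_of_nonpos h] at hu)
      have h2 := hseg _ (hsingle_in i u hu) _ (hsingle_in i (-u) (by rwa [abs_neg]))
        (1 / 2) ⟨by norm_num, by norm_num⟩
      have e : p + Pi.single i u + (1 / 2 : ℝ) • (p + Pi.single i (-u) - (p + Pi.single i u)) =
          p := by
        ext j
        by_cases hj : j = i
        · subst hj
          simp only [Pi.add_apply, Pi.smul_apply, Pi.sub_apply, smul_eq_mul, Pi.single_eq_same]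
          ring
        · simp only [Pi.add_apply, Pi.smul_apply, Pi.sub_apply, smul_eq_mul,
            Pi.single_eq_of_ne hj]
          ring
      rw [e] at h2
      linarith
  have hs1 : ∀ s : Fin 3 → ℝ, (∀ i, |s i| ≤ r / 3) → L (p + s) ≤ L p + ∑ i, a i * s i := by
    intro s hs
    have h1 := hjen p r hr hroomp s hs
    have h2 : ∑ i, L (p + Pi.single i (3 * s i)) = 3 * L p + 3 * ∑ i, a i * s i := by
      rw [Finset.mul_sum]
      have : ∀ i ∈ (Finset.univ : Finset (Fin 3)),
          L (p + Pi.single i (3 * s i)) = L p + 3 * (a i * s i) := by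
        intro i _
        rw [ha1 i (3 * s i) (by
          rw [abs_mul]
          have := hs i
          norm_num
          linarith)]
        ring
      rw [Finset.sum_congr rfl this, Finset.sum_add_distrib, Finset.sum_const,
        Finset.card_univ, Fintype.card_fin]
      simp
    rw [h2] at h1
    linarith
  refine ⟨a, L p - ∑ i, a i * p i, ?_⟩
  intro x hx
  obtain ⟨ε, hε0, hε1, hεs⟩ : ∃ ε : ℝ, 0 < ε ∧ ε ≤ 1 ∧ ∀ i, |(ε • (x - p)) i| < r / 3 := by
    have hden : 0 < ‖x - p‖ + 1 := by positivity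
    refine ⟨min 1 (r / 3 / (‖x - p‖ + 1) / 2), ?_, min_le_left _ _, ?_⟩
    · apply lt_min one_pos
      positivity
    · intro i
      rw [Pi.smul_apply, smul_eq_mul, abs_mul]
      have h1 : 0 < min 1 (r / 3 / (‖x - p‖ + 1) / 2) := by
        apply lt_min one_pos
        positivity
      rw [abs_of_pos h1]
      have h2 : |(x - p) i| ≤ ‖x - p‖ := norm_le_pi_norm (x - p) i
      have h3 : min 1 (r / 3 / (‖x - p‖ + 1) / 2) ≤
        r / 3 / (‖x - p‖ + 1) / 2 := min_le_right _ _
      calc min 1 (r / 3 / (‖x - p‖ + 1) / 2) * |(x - p) i|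
          ≤ (r / 3 / (‖x - p‖ + 1) / 2) * (‖x - p‖ + 1) := by
            apply mul_le_mul h3 (by linarith) (abs_nonneg _) (by positivity)
        _ = r / 3 / 2 := by field_simp
        _ < r / 3 := by linarith
  have h1 := hs1 (ε • (x - p)) (fun i => (hεs i).le)
  have h2 := hs1 (-(ε • (x - p))) (fun i => by
    rw [Pi.neg_apply, abs_neg]
    exact (hεs i).le)
  have h3 := hmid p r hr hroomp (ε • (x - p)) hεs
  rw [← sub_eq_add_neg] at h2
  have h4 : ∑ i, a i * (-(ε • (x - p))) i = -∑ i, a i * (ε • (x - p)) i := by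
    rw [← Finset.sum_neg_distrib]
    apply Finset.sum_congr rfl
    intro i _
    rw [Pi.neg_apply]
    ring
  rw [h4] at h2
  have h5 : L (p + ε • (x - p)) = L p + ∑ i, a i * (ε • (x - p)) i := by linarith
  rw [hseg p hp x hx ε ⟨hε0.le, hε1⟩] at h5
  have h6 : ∑ i, a i * (ε • (x - p)) i = ε * (∑ i, a i * x i - ∑ i, a i * p i) := by
    rw [← Finset.sum_sub_distrib, Finset.mul_sum]
    apply Finset.sum_congr rfl
    intro i _
    rw [Pi.smul_apply, Pi.sub_apply, smul_eq_mul]
    ring
  rw [h6] at h5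
  have h7 : ε * (L x - (∑ i, a i * x i + (L p - ∑ i, a i * p i))) = 0 := by
    linear_combination h5
  have h8 := (mul_eq_zero.1 h7).resolve_left hε0.ne'
  linarith

end Pool.Agent.H234R4.StepE
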